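import Pool.Agent.Helper28.Iw.Point

/-!
# Pointwise inequalities of Burkholder type, homogeneous form
-/

namespace Pool.Agent.Helper28.Iw

open Set

/-- the constant `p^* - 1` -/
noncomputable def cst (p : ℝ) : ℝ := max p (p / (p - 1)) - 1

theorem cst_ge_two {p : ℝ} (hp : 2 ≤ p) : cst p = p - 1 := by
  have : p / (p - 1) ≤ p := by
    rw [div_le_iff₀ (by linarith)]; nlinarith
  rw [cst, max_eq_left this]

theorem cst_le_two {p : ℝ} (h1 : 1 < p) (hp : p ≤ 2) : cst p = 1 / (p - 1) := by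
  have hp1 : 0 < p - 1 := by linarith
  have : p ≤ p / (p - 1) := by
    rw [le_div_iff₀ hp1]; nlinarith
  rw [cst, max_eq_right this]
  field_simp
  ring

theorem one_le_cst {p : ℝ} (h1 : 1 < p) : 1 ≤ cst p := by
  rcases le_total 2 p with h | h
  · rw [cst_ge_two h]; linarith
  · rw [cst_le_two h1 h, le_div_iff₀ (by linarith)]; linarith

/-- Burkholder's inequality. -/
theorem burk {p : ℝ} (h1 : 1 < p) : ∃ α : ℝ, 0 < α ∧ ∀ W Z : ℝ, 0 ≤ W → 0 ≤ Z →
    α * ((cst p * W - Z) * (W + Z) ^ (p - 1)) ≤ cst p ^ p * W ^ p - Z ^ p := by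
  have hp0 : 0 < p := by linarith
  have hp1 : 0 < p - 1 := by linarith
  -- reduction to the normalised form
  have red : ∀ α : ℝ, (∀ t : ℝ, 0 ≤ t → t ≤ 1 →
      α * (cst p * t - (1 - t)) ≤ cst p ^ p * t ^ p - (1 - t) ^ p) →
      ∀ W Z : ℝ, 0 ≤ W → 0 ≤ Z →
      α * ((cst p * W - Z) * (W + Z) ^ (p - 1)) ≤ cst p ^ p * W ^ p - Z ^ p := by
    intro α h W Z hW hZ
    rcases (add_nonneg hW hZ).eq_or_lt with h0 | h0
    · have hW0 : W = 0 := by linarith
      have hZ0 : Z = 0 := by linarith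
      rw [hW0, hZ0, Real.zero_rpow hp0.ne']
      simp
    · set S := W + Z with hS
      have e1 : 1 - W / S = Z / S := by
        rw [eq_div_iff h0.ne', sub_mul, one_mul, div_mul_cancel₀ _ h0.ne', hS]; ring
      have h2 := h (W / S) (by positivity) (by rw [div_le_one h0]; linarith)
      rw [e1, Real.div_rpow hW h0.le, Real.div_rpow hZ h0.le] at h2
      have hSp : 0 < S ^ p := by positivity
      have h3 := mul_le_mul_of_nonneg_right h2 hSp.le
      have e2 : (cst p ^ p * (W ^ p / S ^ p) - Z ^ p / S ^ p) * S ^ p =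
          cst p ^ p * W ^ p - Z ^ p := by field_simp
      have e3 : α * (cst p * (W / S) - Z / S) * S ^ p =
          α * ((cst p * W - Z) * S ^ (p - 1)) := by
        have : S ^ p = S ^ (p - 1) * S := by
          rw [← Real.rpow_add_one h0.ne']; congr 1; ring
        rw [this]
        field_simp
      rw [e2, e3] at h3
      exact h3
  rcases le_total 2 p with h | h
  · refine ⟨p ^ (2 - p) * (p - 1) ^ (p - 1), by positivity, red _ ?_⟩
    intro t ht0 ht1
    rw [cst_ge_two h]
    have := burk_ge_two h ht0 ht1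
    calc _ = p ^ (2 - p) * (p - 1) ^ (p - 1) * (p * t - 1) := by ring
      _ ≤ _ := this
  · refine ⟨p ^ (2 - p), by positivity, red _ ?_⟩
    intro t ht0 ht1
    rw [cst_le_two h1 h]
    have := burk_le_two h1 h (s := 1 - t) (by linarith) (by linarith)
    rw [sub_sub_cancel] at this
    calc _ = p ^ (2 - p) * (p / (p - 1) * t - 1) := by
          field_simp
          ring
      _ ≤ _ := this

theorem mono_aux_ge {p : ℝ} (hp : 2 ≤ p) {s : ℝ} (hs : 1 ≤ s) :
    p * (s ^ (p - 1) - s) ≤ (p - 2) * (s ^ p - 1) := by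
  set m : ℝ → ℝ := fun s => (p - 2) * (s ^ p - 1) - p * (s ^ (p - 1) - s) with hm
  have hd : ∀ t ∈ Ici (1 : ℝ), HasDerivAt m (p * ((p - 2) * t ^ (p - 1) -
      (p - 1) * t ^ (p - 1 - 1) + 1)) t := by
    intro t ht
    have ht0 : 0 < t := lt_of_lt_of_le one_pos ht
    have a1 := ((hd_pow (q := p) (Or.inl ht0)).sub_const 1).const_mul (p - 2)
    have a2 := ((hd_pow (q := p - 1) (Or.inl ht0)).sub (hasDerivAt_id t)).const_mul p
    exact (a1.sub a2).congr_deriv (by ring)
  have hmono : MonotoneOn m (Ici 1) := by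
    refine monotoneOn_of_deriv_nonneg (convex_Ici 1)
      (fun t ht => (hd t ht).continuousAt.continuousWithinAt)
      (fun t ht => (hd t (interior_subset ht)).differentiableAt.differentiableWithinAt) ?_
    intro t ht
    have ht1 := interior_subset ht
    have ht0 : 0 < t := lt_of_lt_of_le one_pos ht1
    rw [(hd t ht1).deriv]
    have hp1 : 0 < p - 1 := by linarith
    have h := Real.geom_mean_le_arith_mean2_weighted (w₁ := (p - 2) / (p - 1))
      (w₂ := 1 / (p - 1)) (p₁ := t ^ (p - 1)) (p₂ := 1) (by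
        apply div_nonneg <;> linarith) (by positivity) (by positivity) zero_le_one (by
        field_simp; ring)
    rw [Real.one_rpow, mul_one, ← Real.rpow_mul ht0.le, mul_div_cancel₀ _ hp1.ne'] at h
    have h2 := mul_le_mul_of_nonneg_left h hp1.le
    have e1 : (p - 1) * ((p - 2) / (p - 1) * t ^ (p - 1) + 1 / (p - 1) * 1) =
        (p - 2) * t ^ (p - 1) + 1 := by field_simp
    rw [e1] at h2
    have e2 : p - 1 - 1 = p - 2 := by ring
    rw [e2]
    apply mul_nonneg (by linarith)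
    linarith
  have h := hmono (mem_Ici.2 le_rfl) hs hs
  simp only [hm, Real.one_rpow, sub_self, mul_zero] at h
  linarith

theorem mono_aux_le {p : ℝ} (h1 : 1 < p) (hp : p ≤ 2) {s : ℝ} (hs : 1 ≤ s) :
    p * (s - s ^ (p - 1)) ≤ (2 - p) * (s ^ p - 1) := by
  set m : ℝ → ℝ := fun s => (2 - p) * (s ^ p - 1) - p * (s - s ^ (p - 1)) with hm
  have hd : ∀ t ∈ Ici (1 : ℝ), HasDerivAt m (p * ((2 - p) * t ^ (p - 1) - 1 +
      (p - 1) * t ^ (p - 1 - 1))) t := by
    intro t ht
    have ht0 : 0 < t := lt_of_lt_of_le one_pos ht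
    have a1 := ((hd_pow (q := p) (Or.inl ht0)).sub_const 1).const_mul (2 - p)
    have a2 := ((hasDerivAt_id t).sub (hd_pow (q := p - 1) (Or.inl ht0))).const_mul p
    exact (a1.sub a2).congr_deriv (by ring)
  have hmono : MonotoneOn m (Ici 1) := by
    refine monotoneOn_of_deriv_nonneg (convex_Ici 1)
      (fun t ht => (hd t ht).continuousAt.continuousWithinAt)
      (fun t ht => (hd t (interior_subset ht)).differentiableAt.differentiableWithinAt) ?_
    intro t ht
    have ht1 := interior_subset ht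
    have ht0 : 0 < t := lt_of_lt_of_le one_pos ht1
    rw [(hd t ht1).deriv]
    have h := Real.geom_mean_le_arith_mean2_weighted (w₁ := 2 - p)
      (w₂ := p - 1) (p₁ := t ^ (p - 1)) (p₂ := t ^ (p - 1 - 1)) (by linarith) (by linarith)
      (by positivity) (by positivity) (by ring)
    rw [← Real.rpow_mul ht0.le, ← Real.rpow_mul ht0.le, ← Real.rpow_add ht0] at h
    have e1 : (p - 1) * (2 - p) + (p - 1 - 1) * (p - 1) = 0 := by ring
    rw [e1, Real.rpow_zero] at h
    apply mul_nonneg (by linarith)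
    linarith
  have h := hmono (mem_Ici.2 le_rfl) hs hs
  simp only [hm, Real.one_rpow, sub_self, mul_zero] at h
  linarith

/-- The second inequality. -/
theorem second {p : ℝ} (h1 : 1 < p) {s d : ℝ} (hs : 1 ≤ s) (hd : |d| ≤ 1) :
    (cst p + 1) * (s * d) + (cst p - 1) ≤
      ((cst p - 1) * s + (cst p + 1) * d) * s ^ (p - 1) := by
  have hs0 : 0 < s := by linarith
  have hp1 : 0 < p - 1 := by linarith
  have hsp : s ^ p = s ^ (p - 1) * s := by
    rw [← Real.rpow_add_one hs0.ne']; congr 1; ring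
  have hd' := abs_le.1 hd
  rcases le_total 2 p with h | h
  · rw [cst_ge_two h]
    have h2 := mono_aux_ge h hs
    have h3 : s ≤ s ^ (p - 1) := by
      calc s = s ^ (1 : ℝ) := (Real.rpow_one s).symm
        _ ≤ _ := Real.rpow_le_rpow_of_exponent_le hs (by linarith)
    rw [hsp] at h2
    nlinarith [mul_nonneg (show 0 ≤ 1 + d by linarith) (show 0 ≤ p * (s ^ (p - 1) - s) by
      apply mul_nonneg <;> linarith)]
  · rw [cst_le_two h1 h]
    have h2 := mono_aux_le h1 h hs
    have h3 : s ^ (p - 1) ≤ s := by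
      calc s ^ (p - 1) ≤ s ^ (1 : ℝ) := Real.rpow_le_rpow_of_exponent_le hs (by linarith)
        _ = s := Real.rpow_one s
    rw [hsp] at h2
    have e1 : 1 / (p - 1) + 1 = p / (p - 1) := by field_simp; ring
    have e2 : 1 / (p - 1) - 1 = (2 - p) / (p - 1) := by field_simp; ring
    rw [e1, e2, ← sub_nonneg]
    have e3 : ((2 - p) / (p - 1) * s + p / (p - 1) * d) * s ^ (p - 1) -
        (p / (p - 1) * (s * d) + (2 - p) / (p - 1)) =
        ((2 - p) * (s ^ (p - 1) * s - 1) - p * (s - s ^ (p - 1)) +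
          p * (s - s ^ (p - 1)) * (1 - d)) / (p - 1) := by
      field_simp
      ring
    rw [e3]
    apply div_nonneg _ hp1.le
    have h4 : 0 ≤ p * (s - s ^ (p - 1)) * (1 - d) := by
      apply mul_nonneg
      · apply mul_nonneg <;> linarith
      · linarith
    linarith

/-- The pointwise inequality in polar frames. -/
theorem pointwise {p : ℝ} (h1 : 1 < p) : ∃ β : ℝ, 0 < β ∧ ∀ x κ η : ℝ,
    β * ((cst p + 1) * (|κ| ^ (p - 2) * κ * x) + (cst p - 1) * |κ| ^ p) ≤
      cst p ^ p * ‖(⟨x + κ, -η⟩ : ℂ)‖ ^ p - ‖(⟨x - κ, η⟩ : ℂ)‖ ^ p := by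
  obtain ⟨α, hα, hB⟩ := burk h1
  refine ⟨α * 2 ^ (p - 1), by positivity, fun x κ η => ?_⟩
  have hp0 : 0 < p := by linarith
  set W : ℝ := ‖(⟨x + κ, -η⟩ : ℂ)‖ with hW
  set Z : ℝ := ‖(⟨x - κ, η⟩ : ℂ)‖ with hZ
  have hW0 : 0 ≤ W := norm_nonneg _
  have hZ0 : 0 ≤ Z := norm_nonneg _
  have hWsq : W ^ 2 = (x + κ) ^ 2 + η ^ 2 := by
    rw [hW, ← Complex.normSq_eq_norm_sq, Complex.normSq_mk]; ring
  have hZsq : Z ^ 2 = (x - κ) ^ 2 + η ^ 2 := by
    rw [hZ, ← Complex.normSq_eq_norm_sq, Complex.normSq_mk]; ring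
  have hc1 := one_le_cst h1
  rcases eq_or_ne κ 0 with rfl | hκ
  · have hWZ : W = Z := by
      have : W ^ 2 = Z ^ 2 := by rw [hWsq, hZsq]; ring
      exact (sq_eq_sq₀ hW0 hZ0).1 this
    rw [abs_zero, Real.zero_rpow hp0.ne', ← hWZ]
    have h2 : 1 ≤ cst p ^ p := Real.one_le_rpow hc1 hp0.le
    have h3 : 0 ≤ W ^ p := by positivity
    simp only [mul_zero, zero_mul, add_zero]
    nlinarith
  · have hk : 0 < |κ| := abs_pos.2 hκ
    have hWa : |x + κ| ≤ W := by
      have := Complex.abs_re_le_norm (⟨x + κ, -η⟩ : ℂ)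
      exact this
    have hZa : |x - κ| ≤ Z := by
      have := Complex.abs_re_le_norm (⟨x - κ, η⟩ : ℂ)
      exact this
    have hS1 : 2 * |κ| ≤ W + Z := by
      have : |2 * κ| ≤ |x + κ| + |x - κ| := by
        calc |2 * κ| = |(x + κ) - (x - κ)| := by ring_nf
          _ ≤ _ := abs_sub _ _
      rw [abs_mul, abs_two] at this
      linarith
    have hS2 : 2 * |x| ≤ W + Z := by
      have : |2 * x| ≤ |x + κ| + |x - κ| := by
        calc |2 * x| = |(x + κ) + (x - κ)| := by ring_nf
          _ ≤ _ := abs_add_le _ _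
      rw [abs_mul, abs_two] at this
      linarith
    set s : ℝ := (W + Z) / (2 * |κ|) with hs
    set d : ℝ := (W - Z) / (2 * |κ|) with hd
    have hs1 : 1 ≤ s := by rw [hs, le_div_iff₀ (by positivity)]; linarith
    have hprod : (W - Z) * (W + Z) = 4 * (x * κ) := by
      have : (W - Z) * (W + Z) = W ^ 2 - Z ^ 2 := by ring
      rw [this, hWsq, hZsq]; ring
    have hSpos : 0 < W + Z := by linarith
    have hd1 : |d| ≤ 1 := by
      rw [hd, abs_div, abs_of_pos (show (0 : ℝ) < 2 * |κ| by positivity),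
        div_le_one (by positivity)]
      have h5 : |W - Z| * (W + Z) = 4 * (|x| * |κ|) := by
        rw [← abs_of_pos hSpos, ← abs_mul, hprod, abs_mul, abs_mul]
        norm_num
      have h6 : |W - Z| * (W + Z) ≤ (2 * |κ|) * (W + Z) := by
        rw [h5]; nlinarith
      exact le_of_mul_le_mul_right h6 hSpos
    have hsec := second h1 hs1 hd1
    have hmain := hB W Z hW0 hZ0
    have e1 : s * d = x * κ / |κ| ^ 2 := by
      rw [hs, hd, div_mul_div_comm, mul_comm (W + Z), hprod]
      field_simp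
      ring
    have e2 : (W + Z) ^ (p - 1) = (2 * |κ|) ^ (p - 1) * s ^ (p - 1) := by
      rw [← Real.mul_rpow (by positivity) (by positivity), hs]
      congr 1
      field_simp
    have e3 : cst p * W - Z = |κ| * ((cst p - 1) * s + (cst p + 1) * d) := by
      rw [hs, hd]
      field_simp
      ring
    have e4 : |κ| ^ p = |κ| ^ (p - 1) * |κ| := by
      rw [← Real.rpow_add_one hk.ne']; congr 1; ring
    have e5 : |κ| ^ (p - 2) * κ * x = |κ| ^ p * (s * d) := by
      have : |κ| ^ p = |κ| ^ (p - 2) * |κ| ^ 2 := by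
        rw [← Real.rpow_natCast, ← Real.rpow_add hk]; congr 1; push_cast; ring
      rw [e1, this]
      field_simp
    have e6 : (2 * |κ|) ^ (p - 1) = 2 ^ (p - 1) * |κ| ^ (p - 1) :=
      Real.mul_rpow (by norm_num) hk.le
    calc α * 2 ^ (p - 1) * ((cst p + 1) * (|κ| ^ (p - 2) * κ * x) + (cst p - 1) * |κ| ^ p)
        = α * 2 ^ (p - 1) * |κ| ^ p * ((cst p + 1) * (s * d) + (cst p - 1)) := by
          rw [e5]; ring
      _ ≤ α * 2 ^ (p - 1) * |κ| ^ p * (((cst p - 1) * s + (cst p + 1) * d) * s ^ (p - 1)) := by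
          gcongr
      _ = α * ((cst p * W - Z) * (W + Z) ^ (p - 1)) := by
          rw [e3, e2, e6, e4]; ring
      _ ≤ _ := hmain

end Pool.Agent.Helper28.Iw
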