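import Pool.Agent.Helper28.Iw.Point2

/-!
# A supporting line version of the pointwise inequality
-/

namespace Pool.Agent.Helper28.Iw

open Set

/-- Burkholder's functional in terms of `S` (half the sum of the two norms) and the Jacobian `J` -/
noncomputable def HH (p S J : ℝ) : ℝ := (cst p - 1) * S ^ p + (cst p + 1) * (J * S ^ (p - 2))

/-- the radial integrand -/
noncomputable def EE (p x κ : ℝ) : ℝ := HH p |κ| (x * κ)

theorem burkS {p : ℝ} (h1 : 1 < p) : ∃ β : ℝ, 0 < β ∧ ∀ x κ η : ℝ, ∃ S : ℝ, |x| ≤ S ∧ |κ| ≤ S ∧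
    β * HH p S (x * κ) ≤
      cst p ^ p * ‖(⟨x + κ, -η⟩ : ℂ)‖ ^ p - ‖(⟨x - κ, η⟩ : ℂ)‖ ^ p := by
  obtain ⟨α, hα, hB⟩ := burk h1
  refine ⟨α * 2 ^ (p - 1), by positivity, fun x κ η => ?_⟩
  have hp0 : 0 < p := by linarith
  set W : ℝ := ‖(⟨x + κ, -η⟩ : ℂ)‖ with hW
  set Z : ℝ := ‖(⟨x - κ, η⟩ : ℂ)‖ with hZ
  have hW0 : 0 ≤ W := norm_nonneg _
  have hZ0 : 0 ≤ Z := norm_nonneg _
  have hWsq : W ^ 2 = (x + κ) ^ 2 + η ^ 2 := by
    rw [hW, ← Complex.normSq_eq_norm_sq, Complex.normSq_mk]; ring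
  have hZsq : Z ^ 2 = (x - κ) ^ 2 + η ^ 2 := by
    rw [hZ, ← Complex.normSq_eq_norm_sq, Complex.normSq_mk]; ring
  have hWa : |x + κ| ≤ W := Complex.abs_re_le_norm (⟨x + κ, -η⟩ : ℂ)
  have hZa : |x - κ| ≤ Z := Complex.abs_re_le_norm (⟨x - κ, η⟩ : ℂ)
  have hS1 : 2 * |κ| ≤ W + Z := by
    have : |2 * κ| ≤ |x + κ| + |x - κ| := by
      calc |2 * κ| = |(x + κ) - (x - κ)| := by ring_nf
        _ ≤ _ := abs_sub _ _
    rw [abs_mul, abs_two] at this
    linarith
  have hS2 : 2 * |x| ≤ W + Z := by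
    have : |2 * x| ≤ |x + κ| + |x - κ| := by
      calc |2 * x| = |(x + κ) + (x - κ)| := by ring_nf
        _ ≤ _ := abs_add_le _ _
    rw [abs_mul, abs_two] at this
    linarith
  refine ⟨(W + Z) / 2, by linarith, by linarith, ?_⟩
  refine le_trans (le_of_eq ?_) (hB W Z hW0 hZ0)
  rcases (add_nonneg hW0 hZ0).eq_or_lt with h0 | h0
  · have hW00 : W = 0 := by linarith
    have hZ00 : Z = 0 := by linarith
    have hx0 : x = 0 := by
      have : |x| ≤ 0 := by rw [hW00, hZ00] at hS2; linarith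
      exact abs_nonpos_iff.1 this
    rw [hW00, hZ00, hx0, HH]
    simp [Real.zero_rpow hp0.ne']
  · set S := (W + Z) / 2 with hS
    have hSpos : 0 < S := by rw [hS]; linarith
    have hprod : (W - Z) * S = 2 * (x * κ) := by
      have : (W - Z) * S = (W ^ 2 - Z ^ 2) / 2 := by rw [hS]; ring
      rw [this, hWsq, hZsq]; ring
    have e2 : W + Z = 2 * S := by rw [hS]; ring
    have e3 : (W + Z) ^ (p - 1) = 2 ^ (p - 1) * S ^ (p - 1) := by
      rw [e2, Real.mul_rpow (by norm_num) hSpos.le]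
    have e4 : S ^ p = S ^ (p - 1) * S := by
      rw [← Real.rpow_add_one hSpos.ne']; congr 1; ring
    have e5 : S ^ (p - 1) = S ^ (p - 2) * S := by
      rw [← Real.rpow_add_one hSpos.ne']; congr 1; ring
    have e6 : cst p * W - Z = (cst p - 1) * S + (cst p + 1) * ((W - Z) / 2) := by
      rw [hS]; ring
    rw [e3, HH, e4, e6]
    have e7 : x * κ = (W - Z) / 2 * S := by linarith
    rw [e7, e5]
    ring

/-- monotonicity in `S` -/
theorem mono_HH {p : ℝ} (h1 : 1 < p) {s S J : ℝ} (hs : 0 ≤ s) (hsS : s ≤ S)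
    (hJ : |J| ≤ S * s) : HH p s J ≤ HH p S J := by
  have hp0 : 0 < p := by linarith
  have hc := one_le_cst h1
  rcases hs.eq_or_lt with h0 | h0
  · have hJ0 : J = 0 := by
      rw [← h0, mul_zero] at hJ
      exact abs_nonpos_iff.1 hJ
    have hS0 : 0 ≤ S := hs.trans hsS
    rw [← h0, hJ0, HH, HH, Real.zero_rpow hp0.ne']
    simp only [mul_zero, zero_mul, add_zero]
    apply mul_nonneg (by linarith)
    positivity
  · have hS0 : 0 < S := h0.trans_le hsS
    have hd : |J / (S * s)| ≤ 1 := by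
      rw [abs_div, abs_of_pos (mul_pos hS0 h0), div_le_one (mul_pos hS0 h0)]
      exact hJ
    have h2 := second h1 (s := S / s) (d := J / (S * s)) (by rwa [le_div_iff₀ h0, one_mul]) hd
    have h3 := mul_le_mul_of_nonneg_left h2 (show 0 ≤ s ^ p by positivity)
    have e1 : s ^ p = s ^ (p - 1) * s := by
      rw [← Real.rpow_add_one h0.ne']; congr 1; ring
    have e2 : s ^ (p - 1) = s ^ (p - 2) * s := by
      rw [← Real.rpow_add_one h0.ne']; congr 1; ring
    have e3 : (S / s) ^ (p - 1) = S ^ (p - 1) / s ^ (p - 1) := Real.div_rpow hS0.le h0.le _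
    have e4 : S ^ p = S ^ (p - 1) * S := by
      rw [← Real.rpow_add_one hS0.ne']; congr 1; ring
    have e5 : S ^ (p - 1) = S ^ (p - 2) * S := by
      rw [← Real.rpow_add_one hS0.ne']; congr 1; ring
    have l1 : s ^ p * ((cst p + 1) * (S / s * (J / (S * s))) + (cst p - 1)) = HH p s J := by
      rw [HH, e1, e2]; field_simp; ring
    have l2 : s ^ p * (((cst p - 1) * (S / s) + (cst p + 1) * (J / (S * s))) *
        (S / s) ^ (p - 1)) = HH p S J := by
      have hsp : 0 < s ^ (p - 1) := by positivity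
      rw [HH, e1, e3, e4, e5]; field_simp
    rw [l1, l2] at h3
    exact h3

/-- tangent lines lie below when the derivative is monotone -/
theorem tangent_of_mono {g g' : ℝ → ℝ} {a : ℝ} (hg : ∀ t, a ≤ t → HasDerivAt g (g' t) t)
    (hm : ∀ s t, a ≤ s → s ≤ t → g' s ≤ g' t) {u v : ℝ} (hu : a ≤ u) (hv : a ≤ v) :
    g u + g' u * (v - u) ≤ g v := by
  rcases lt_trichotomy u v with h | h | h
  · obtain ⟨ξ, hξ, e⟩ := exists_hasDerivAt_eq_slope g g' h
      (fun t ht => (hg t (hu.trans ht.1)).continuousAt.continuousWithinAt)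
      (fun t ht => hg t (hu.trans ht.1.le))
    have h2 := hm u ξ hu hξ.1.le
    rw [e, le_div_iff₀ (by linarith)] at h2
    linarith
  · rw [h]; simp
  · obtain ⟨ξ, hξ, e⟩ := exists_hasDerivAt_eq_slope g g' h
      (fun t ht => (hg t (hv.trans ht.1)).continuousAt.continuousWithinAt)
      (fun t ht => hg t (hv.trans ht.1.le))
    have h2 := hm ξ u (hv.trans hξ.1.le) hξ.2.le
    rw [e, div_le_iff₀ (by linarith)] at h2
    linarith

/-- the sign condition behind the convexity -/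
theorem sign_ok {p : ℝ} (h1 : 1 < p) {x s : ℝ} (hs : |x| ≤ s) :
    0 ≤ (cst p - 1) * p * s + (cst p + 1) * (p - 2) * x := by
  have hx := abs_le.1 hs
  rcases le_total 2 p with h | h
  · rw [cst_ge_two h]
    have : (p - 1 - 1) * p * s + (p - 1 + 1) * (p - 2) * x = p * (p - 2) * (s + x) := by ring
    rw [this]
    apply mul_nonneg
    · apply mul_nonneg <;> linarith
    · linarith
  · rw [cst_le_two h1 h]
    have hp1 : 0 < p - 1 := by linarith
    have : (1 / (p - 1) - 1) * p * s + (1 / (p - 1) + 1) * (p - 2) * x =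
        p * (2 - p) * (s - x) / (p - 1) := by field_simp; ring
    rw [this]
    apply div_nonneg _ hp1.le
    apply mul_nonneg
    · apply mul_nonneg <;> linarith
    · linarith

/-- `g_x(t) = (c-1) t^p + (c+1) x t^(p-1)` -/
noncomputable def gg (p x t : ℝ) : ℝ := (cst p - 1) * t ^ p + (cst p + 1) * x * t ^ (p - 1)

/-- its derivative -/
noncomputable def gg' (p x t : ℝ) : ℝ :=
  (cst p - 1) * (p * t ^ (p - 1)) + (cst p + 1) * x * ((p - 1) * t ^ (p - 2))

theorem hasDerivAt_gg (p x : ℝ) {t : ℝ} (ht : 0 < t) : HasDerivAt (gg p x) (gg' p x t) t := by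
  have a1 := (hd_pow (q := p) (Or.inl ht)).const_mul (cst p - 1)
  have a2 := (hd_pow (q := p - 1) (Or.inl ht)).const_mul ((cst p + 1) * x)
  refine (a1.add a2).congr_deriv ?_
  have : p - 1 - 1 = p - 2 := by ring
  rw [this, gg']

theorem gg'_mono {p : ℝ} (h1 : 1 < p) {x : ℝ} {s t : ℝ} (hs0 : 0 < s) (hs : |x| ≤ s) (hst : s ≤ t) :
    gg' p x s ≤ gg' p x t := by
  have hd : ∀ u, 0 < u → HasDerivAt (gg' p x)
      ((p - 1) * u ^ (p - 3) * ((cst p - 1) * p * u + (cst p + 1) * (p - 2) * x)) u := by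
    intro u hu
    have a1 := ((hd_pow (q := p - 1) (Or.inl hu)).const_mul p).const_mul (cst p - 1)
    have a2 := ((hd_pow (q := p - 2) (Or.inl hu)).const_mul (p - 1)).const_mul ((cst p + 1) * x)
    refine (a1.add a2).congr_deriv ?_
    have e1 : p - 2 - 1 = p - 3 := by ring
    have e2 : u ^ (p - 1 - 1) = u ^ (p - 3) * u := by
      rw [← Real.rpow_add_one hu.ne']; congr 1; ring
    rw [e1, e2]
    ring
  have hmono : MonotoneOn (gg' p x) (Ici s) := by
    refine monotoneOn_of_deriv_nonneg (convex_Ici s)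
      (fun u hu => (hd u (hs0.trans_le hu)).continuousAt.continuousWithinAt)
      (fun u hu => (hd u (hs0.trans_le (interior_subset hu))).differentiableAt.differentiableWithinAt) ?_
    intro u hu
    have hu1 : s ≤ u := interior_subset hu
    have hu0 : 0 < u := hs0.trans_le hu1
    rw [(hd u hu0).deriv]
    have := sign_ok h1 (hs.trans hu1)
    apply mul_nonneg _ this
    apply mul_nonneg (by linarith)
    positivity
  exact hmono (mem_Ici.2 le_rfl) hst hst

theorem gg_tangent {p : ℝ} (h1 : 1 < p) {x a u v : ℝ} (ha : 0 < a) (hxa : |x| ≤ a)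
    (hu : a ≤ u) (hv : a ≤ v) : gg p x u + gg' p x u * (v - u) ≤ gg p x v :=
  tangent_of_mono (fun _ ht => hasDerivAt_gg p x (ha.trans_le ht))
    (fun _ _ hs hst => gg'_mono h1 (ha.trans_le hs) (hxa.trans hs) hst) hu hv

/-- the lower half -/
theorem gg_tangent_neg {p : ℝ} (h1 : 1 < p) {x S k : ℝ} (hS : 0 < S) (hk : 0 < k)
    (hxS : |x| ≤ S) (hxk : |x| ≤ k) :
    gg p x k - gg' p x k * (S + k) ≤ gg p (-x) S := by
  set a : ℝ := min S k with ha
  have ha0 : 0 < a := lt_min hS hk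
  have hxa : |x| ≤ a := le_min hxS hxk
  have haS : a ≤ S := min_le_left _ _
  have hak : a ≤ k := min_le_right _ _
  have t1 := gg_tangent h1 (x := -x) ha0 (by rwa [abs_neg]) le_rfl haS
  have t2 := gg_tangent h1 (x := x) ha0 hxa hak le_rfl
  have t3 := gg'_mono h1 ha0 hxa hak
  have hsg := sign_ok h1 hxS
  have e1 : a ^ p = a ^ (p - 1) * a := by
    rw [← Real.rpow_add_one ha0.ne']; congr 1; ring
  have e2 : a ^ (p - 1) = a ^ (p - 2) * a := by
    rw [← Real.rpow_add_one ha0.ne']; congr 1; ring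
  have key : gg p (-x) a + gg' p (-x) a * (S - a) - (gg p x a - gg' p x a * (S + a)) =
      2 * a ^ (p - 1) * ((cst p - 1) * p * S + (cst p + 1) * (p - 2) * x) := by
    simp only [gg, gg']
    rw [e1, e2]
    ring
  have hnn : 0 ≤ 2 * a ^ (p - 1) * ((cst p - 1) * p * S + (cst p + 1) * (p - 2) * x) := by
    apply mul_nonneg _ hsg
    positivity
  have t4 : gg' p x a * (S + a) ≤ gg' p x k * (S + a) :=
    mul_le_mul_of_nonneg_right t3 (by linarith)
  nlinarith

theorem HH_endpoint {p : ℝ} (x : ℝ) {S : ℝ} (hS : 0 < S) : HH p S (x * S) = gg p x S := by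
  have e5 : S ^ (p - 1) = S ^ (p - 2) * S := by
    rw [← Real.rpow_add_one hS.ne']; congr 1; ring
  rw [HH, gg, e5]; ring

/-- supporting line at `k > 0`, `|x| ≤ k` -/
theorem support_pos {p : ℝ} (h1 : 1 < p) {x k : ℝ} (hk : 0 < k) (hxk : |x| ≤ k) {S κ : ℝ}
    (hxS : |x| ≤ S) (hκS : |κ| ≤ S) :
    EE p x k + gg' p x k * (κ - k) ≤ HH p S (x * κ) := by
  have hp0 : 0 < p := by linarith
  have hc := one_le_cst h1
  have hE : EE p x k = gg p x k := by
    rw [EE, abs_of_pos hk, HH_endpoint x hk]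
  have hS0 : 0 ≤ S := (abs_nonneg _).trans hxS
  rcases hS0.eq_or_lt with h0 | h0
  · have hx0 : x = 0 := by rw [← h0] at hxS; exact abs_nonpos_iff.1 hxS
    have hκ0 : κ = 0 := by rw [← h0] at hκS; exact abs_nonpos_iff.1 hκS
    have e1 : k ^ p = k ^ (p - 1) * k := by
      rw [← Real.rpow_add_one hk.ne']; congr 1; ring
    rw [hE, ← h0, hx0, hκ0, HH, gg, gg', Real.zero_rpow hp0.ne', e1]
    have : 0 ≤ (cst p - 1) * (p - 1) * (k ^ (p - 1) * k) := by
      apply mul_nonneg
      · apply mul_nonneg <;> linarith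
      · positivity
    nlinarith
  · have t1 : gg p x k + gg' p x k * (S - k) ≤ gg p x S := by
      have ha0 : 0 < min S k := lt_min h0 hk
      exact gg_tangent h1 ha0 (le_min hxS hxk) (min_le_right _ _) (min_le_left _ _)
    have t2 := gg_tangent_neg h1 h0 hk hxS hxk
    have hκ := abs_le.1 hκS
    have e5 : S ^ (p - 1) = S ^ (p - 2) * S := by
      rw [← Real.rpow_add_one h0.ne']; congr 1; ring
    have key : 2 * S * (HH p S (x * κ) - (EE p x k + gg' p x k * (κ - k))) =
        (S + κ) * (gg p x S - (gg p x k + gg' p x k * (S - k))) +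
        (S - κ) * (gg p (-x) S - (gg p x k - gg' p x k * (S + k))) := by
      rw [hE, HH]
      have : gg p x S = (cst p - 1) * S ^ p + (cst p + 1) * x * (S ^ (p - 2) * S) := by
        rw [gg, e5]
      rw [this]
      have : gg p (-x) S = (cst p - 1) * S ^ p + (cst p + 1) * (-x) * (S ^ (p - 2) * S) := by
        rw [gg, e5]
      rw [this]
      ring
    have hnn : 0 ≤ 2 * S * (HH p S (x * κ) - (EE p x k + gg' p x k * (κ - k))) := by
      rw [key]
      apply add_nonneg
      · apply mul_nonneg <;> linarith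
      · apply mul_nonneg <;> linarith
    have := (mul_nonneg_iff_of_pos_left (show (0 : ℝ) < 2 * S by linarith)).1 hnn
    linarith

/-- supporting lines exist at every point -/
theorem support {p : ℝ} (h1 : 1 < p) (x k : ℝ) : ∃ σ : ℝ, ∀ S κ : ℝ, |x| ≤ S → |κ| ≤ S →
    EE p x k + σ * (κ - k) ≤ HH p S (x * κ) := by
  rcases le_or_gt |k| |x| with h | h
  · -- small `k`
    refine ⟨(cst p + 1) * (x * |x| ^ (p - 2)), fun S κ hxS hκS => ?_⟩
    have m1 : HH p |x| (x * κ) ≤ HH p S (x * κ) := by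
      refine mono_HH h1 (abs_nonneg _) hxS ?_
      rw [abs_mul, mul_comm]
      exact mul_le_mul_of_nonneg_right hκS (abs_nonneg _)
    have m2 : EE p x k ≤ HH p |x| (x * k) := by
      refine mono_HH h1 (abs_nonneg _) h ?_
      rw [abs_mul]
    have e1 : HH p |x| (x * κ) = HH p |x| (x * k) +
        (cst p + 1) * (x * |x| ^ (p - 2)) * (κ - k) := by
      rw [HH, HH]; ring
    linarith
  · have hk0 : k ≠ 0 := by
      rintro rfl
      rw [abs_zero] at h
      exact absurd (abs_nonneg x) (not_le.2 h)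
    rcases lt_or_gt_of_ne hk0 with hk | hk
    · refine ⟨-gg' p (-x) (-k), fun S κ hxS hκS => ?_⟩
      rw [abs_of_neg hk] at h
      have := support_pos h1 (x := -x) (k := -k) (by linarith) (by rw [abs_neg]; exact h.le)
        (S := S) (κ := -κ) (by rwa [abs_neg]) (by rwa [abs_neg])
      have e1 : EE p (-x) (-k) = EE p x k := by
        rw [EE, EE, abs_neg]; congr 1; ring
      rw [e1, neg_mul_neg] at this
      linarith
    · refine ⟨gg' p x k, fun S κ hxS hκS => ?_⟩
      rw [abs_of_pos hk] at h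
      exact support_pos h1 hk h.le hxS hκS

/-- The supporting line version of the pointwise inequality. -/
theorem pointwise_support {p : ℝ} (h1 : 1 < p) : ∃ β : ℝ, 0 < β ∧ ∀ x k : ℝ, ∃ σ : ℝ, ∀ κ η : ℝ,
    β * (EE p x k + σ * (κ - k)) ≤
      cst p ^ p * ‖(⟨x + κ, -η⟩ : ℂ)‖ ^ p - ‖(⟨x - κ, η⟩ : ℂ)‖ ^ p := by
  obtain ⟨β, hβ, hB⟩ := burkS h1
  refine ⟨β, hβ, fun x k => ?_⟩
  obtain ⟨σ, hσ⟩ := support h1 x k
  refine ⟨σ, fun κ η => ?_⟩
  obtain ⟨S, hxS, hκS, hS⟩ := hB x κ η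
  exact (mul_le_mul_of_nonneg_left (hσ S κ hxS hκS) hβ.le).trans hS

end Pool.Agent.Helper28.Iw
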