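import Pool.Agent.Helper28.Iw.VFun
import Pool.Agent.Helper28.Iw.Jensen

/-!
# Maps with radial modulus
-/

namespace Pool.Agent.Helper28.Iw

open Set MeasureTheory Filter Topology

theorem norm_mk_neg (a b : ℝ) : ‖(⟨a, -b⟩ : ℂ)‖ = ‖(⟨a, b⟩ : ℂ)‖ := by
  have : (⟨a, -b⟩ : ℂ) = (starRingEnd ℂ) ⟨a, b⟩ := rfl
  rw [this, Complex.norm_conj]

theorem circ_main {p : ℝ} (h1 : 1 < p) {f : ℂ → ℂ} (hf : ContDiff ℝ 1 f)
    {M : ℝ} (hM0 : 0 < M) (hM' : ∀ z : ℂ, M ≤ ‖z‖ → fderiv ℝ f z = 0)
    (H : ∀ z w : ℂ, ‖z‖ = ‖w‖ → ‖f z‖ = ‖f w‖) :
    0 ≤ ∫ z, defect p (fderiv ℝ f z) := by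
  have hp0 : 0 < p := by linarith
  have hD0 : Continuous (fderiv ℝ f) := hf.continuous_fderiv one_ne_zero
  obtain ⟨C, hC⟩ : ∃ C, ∀ z, ‖fderiv ℝ f z‖ ≤ C := by
    have hs : HasCompactSupport (fderiv ℝ f) := by
      refine HasCompactSupport.intro (isCompact_closedBall (0 : ℂ) M) ?_
      intro z hz
      rw [Metric.mem_closedBall, dist_zero_right, not_le] at hz
      exact hM' z hz.le
    exact hs.exists_bound_of_continuous hD0
  obtain ⟨β, hβ, hP⟩ := pointwise_support h1
  obtain ⟨hi, h00⟩ := integral_dVf hf H h1 hM0 hC hM'
  have hD : Continuous (fderiv ℝ f) := hf.continuous_fderiv one_ne_zero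
  have hF : Continuous (fun z => defect p (fderiv ℝ f z)) := (continuous_defect h1).comp hD
  have hFM : ∀ z : ℂ, M ≤ ‖z‖ → defect p (fderiv ℝ f z) = 0 := by
    intro z hz
    rw [hM' z hz, defect_zero h1]
  rw [integral_polar' hF hFM]
  have hint : IntegrableOn (fun r : ℝ => ∫ θ in Ioo (-Real.pi) Real.pi,
      r * defect p (fderiv ℝ f (r * Complex.exp (θ * Complex.I)))) (Ioi 0) := by
    have hi2 := integrableOn_polar hF hFM
    rw [IntegrableOn, Measure.volume_eq_prod, ← Measure.prod_restrict] at hi2
    exact hi2.integral_prod_left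
  set K : ℝ := 2 * Real.pi * β * ((cst p + 1) / p) with hK
  have : ∫ r in Ioi (0 : ℝ), K * dVf p f r ≤ ∫ r in Ioi (0 : ℝ),
      ∫ θ in Ioo (-Real.pi) Real.pi,
      r * defect p (fderiv ℝ f (r * Complex.exp (θ * Complex.I))) := by
    refine setIntegral_mono_on (hi.const_mul K) hint measurableSet_Ioi ?_
    intro r hr
    have hr0 : 0 < r := hr
    rcases (rho_nonneg f r).eq_or_lt with h | h
    · -- the modulus vanishes
      have hτ : tau f r = 0 := tau_of_rho_zero h.symm
      have hdV : dVf p f r = 0 := by rw [dVf, hτ]; simp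
      rw [hdV, mul_zero]
      refine integral_nonneg fun θ => ?_
      have hB : fderiv ℝ f (r * Complex.exp (θ * Complex.I))
          (Complex.I * Complex.exp (θ * Complex.I)) = 0 := by
        have a1 := hasDerivAt_angular hf θ r
        have a2 : (fun t : ℝ => f (r * Complex.exp (t * Complex.I))) = fun _ => (0 : ℂ) := by
          funext t
          rw [← norm_eq_zero, norm_f_z H, ← h]
        rw [a2] at a1
        have a3 := a1.unique (hasDerivAt_const θ _)
        rcases mul_eq_zero.1 a3 with h | h
        · exact absurd (by exact_mod_cast h) hr0.ne'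
        · exact h
      have b1 := norm_frame_sub (fderiv ℝ f (r * Complex.exp (θ * Complex.I))) θ (w := 1)
        norm_one
      have b2 := norm_frame_add (fderiv ℝ f (r * Complex.exp (θ * Complex.I))) θ (w := 1)
        norm_one
      rw [hB, zero_mul, mul_zero, sub_zero, mul_one] at b1
      rw [hB, zero_mul, mul_zero, add_zero, mul_one] at b2
      have h2 : 1 ≤ cst p ^ p := Real.one_le_rpow (one_le_cst h1) hp0.le
      have h3 : 0 ≤ ‖fderiv ℝ f (r * Complex.exp (θ * Complex.I))
        (Complex.exp (θ * Complex.I))‖ ^ p := by positivity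
      change 0 ≤ r * defect p (fderiv ℝ f (r * Complex.exp (θ * Complex.I)))
      rw [defect, ← b1, ← b2]
      apply mul_nonneg hr0.le
      nlinarith
    · -- the modulus does not vanish
      obtain ⟨n, hn⟩ := tau_int hf H hr0 h
      set x := xr f r with hx
      set k := mk f r with hk
      obtain ⟨σ, hσ⟩ := hP x k
      have hkτ : tau f r * rho f r / r = k := by
        rw [tau, ← hk]; field_simp
      have hpt : ∀ θ : ℝ, r * (β * (EE p x k + σ * (kap f r θ - k))) ≤
          r * defect p (fderiv ℝ f (r * Complex.exp (θ * Complex.I))) := by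
        intro θ
        refine mul_le_mul_of_nonneg_left ?_ hr0.le
        set z : ℂ := r * Complex.exp (θ * Complex.I) with hz
        set L := fderiv ℝ f z with hL
        have hnz : ‖f z‖ = rho f r := norm_f_z H r θ
        have hw : ‖star (f z) / (rho f r : ℂ)‖ = 1 := by
          rw [norm_div, norm_star, hnz, Complex.norm_real, Real.norm_eq_abs, abs_of_pos h,
            div_self h.ne']
        have b1 := norm_frame_sub L θ hw
        have b2 := norm_frame_add L θ hw
        rw [defect, ← b1, ← b2]
        set A := L (Complex.exp (θ * Complex.I)) * (star (f z) / (rho f r : ℂ)) with hA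
        set B := L (Complex.I * Complex.exp (θ * Complex.I)) * (star (f z) / (rho f r : ℂ))
          with hB
        have hAre : A.re = x := by
          rw [hx, ← xr_eq hf H θ h, hA, mul_div_assoc', Complex.div_ofReal_re, mul_comm]
        have hBre : B.re = 0 := by
          have := re_zero hf H r θ hr0.ne'
          rw [hB, mul_div_assoc', Complex.div_ofReal_re, mul_comm]
          rw [this, zero_div]
        have hBim : B.im = kap f r θ := by
          rw [hB, mul_div_assoc', Complex.div_ofReal_im, mul_comm, kap]
          congr 1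
          exact hnz.symm
        have c1 : A - Complex.I * B = (⟨x + kap f r θ, -(-A.im)⟩ : ℂ) := by
          apply Complex.ext
          · rw [Complex.sub_re, Complex.I_mul_re, hAre, hBim]
            simp only []; ring
          · rw [Complex.sub_im, Complex.I_mul_im, hBre]
            simp only []; ring
        have c2 : A + Complex.I * B = (⟨x - kap f r θ, A.im⟩ : ℂ) := by
          apply Complex.ext
          · rw [Complex.add_re, Complex.I_mul_re, hAre, hBim]
            simp only []; ring
          · rw [Complex.add_im, Complex.I_mul_im, hBre]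
            simp only []; ring
        rw [c1, c2, ← norm_mk_neg (x - kap f r θ) A.im]
        exact hσ (kap f r θ) (-A.im)
      have hik := integrable_kap hf r
      have hI1 : IntegrableOn (fun θ => r * (β * (EE p x k + σ * (kap f r θ - k))))
          (Ioo (-Real.pi) Real.pi) := by
        refine Integrable.const_mul ?_ r
        refine Integrable.const_mul ?_ β
        refine Integrable.add (by simp) ?_
        refine Integrable.const_mul ?_ σ
        exact hik.sub (by simp)
      have hI2 : IntegrableOn (fun θ : ℝ => r * defect p (fderiv ℝ f (r * Complex.exp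
          (θ * Complex.I)))) (Ioo (-Real.pi) Real.pi) := by
        have hcc : Continuous (fun θ : ℝ => r * defect p (fderiv ℝ f (r * Complex.exp
          (θ * Complex.I)))) := by
          have : Continuous (fun θ : ℝ => defect p (fderiv ℝ f (r * Complex.exp
            (θ * Complex.I)))) := hF.comp (by fun_prop)
          exact continuous_const.mul this
        exact (hcc.continuousOn.integrableOn_compact isCompact_Icc).mono_set Ioo_subset_Icc_self
      have hmono := integral_mono hI1 hI2 hpt
      refine le_trans ?_ hmono
      have hvol : (volume.restrict (Ioo (-Real.pi) Real.pi)).real univ = 2 * Real.pi := by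
        rw [Measure.real, Measure.restrict_apply_univ, Real.volume_Ioo, ENNReal.toReal_ofReal (by
          linarith [Real.pi_pos])]
        ring
      have hval : ∫ θ in Ioo (-Real.pi) Real.pi, r * (β * (EE p x k + σ * (kap f r θ - k))) =
          2 * Real.pi * β * (r * EE p x k) := by
        rw [integral_const_mul, integral_const_mul, integral_add (by simp) (by
          refine Integrable.const_mul ?_ σ
          exact hik.sub (by simp)), integral_const_mul, integral_sub hik (by simp),
          integral_const, integral_const, hvol]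
        have : ∫ θ in Ioo (-Real.pi) Real.pi, kap f r θ = 2 * Real.pi * k := by
          rw [hk, mk]; field_simp
        rw [this]
        simp only [smul_eq_mul]
        ring
      rw [hval]
      have ha : 0 ≤ (cst p + 1) * (p - 2) * tau f r / p + (cst p - 1) * tau f r ^ 2 := by
        rw [hn]
        refine turn_ok h1 (fun _ => ?_) (fun _ => ?_)
        · rcases le_or_gt 0 n with h | h
          · left; exact_mod_cast h
          · right
            have : n ≤ -1 := by omega
            exact_mod_cast this
        · rcases le_or_gt n 0 with h | h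
          · left; exact_mod_cast h
          · right
            have : 1 ≤ n := by omega
            exact_mod_cast this
      have halg := radial_algebra h1 ha (R := rho f r) (x := x) hr0
      rw [hkτ] at halg
      have hEE : EE p x k = (cst p + 1) * (|k| ^ (p - 2) * k * x) + (cst p - 1) * |k| ^ p := by
        rw [EE, HH]; ring
      rw [← hEE] at halg
      have e1 : K * dVf p f r = 2 * Real.pi * β * ((|tau f r| ^ (p - 2) * tau f r *
          (cst p + 1) / p) * dV p (rho f r) x r) := by
        rw [hK, dVf]; ring
      rw [e1]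
      exact mul_le_mul_of_nonneg_left halg (by positivity)
  rw [integral_const_mul, h00, mul_zero] at this
  exact this

/-- arbitrary centres -/
theorem circ_main' {p : ℝ} (h1 : 1 < p) {f : ℂ → ℂ} (hf : ContDiff ℝ 1 f)
    (hc : HasCompactSupport f) (z₀ w₀ : ℂ)
    (H : ∀ z w : ℂ, ‖z - z₀‖ = ‖w - z₀‖ → ‖f z - w₀‖ = ‖f w - w₀‖) :
    0 ≤ ∫ z, defect p (fderiv ℝ f z) := by
  set g : ℂ → ℂ := fun z => f (z + z₀) - w₀ with hg
  have hgd : ∀ z, fderiv ℝ g z = fderiv ℝ f (z + z₀) := by
    intro z
    rw [hg, fderiv_sub_const, fderiv_comp_add_right]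
  have hgc : ContDiff ℝ 1 g := (hf.comp (contDiff_id.add contDiff_const)).sub contDiff_const
  obtain ⟨M, hM0, -, hM⟩ := exists_radius hc
  have h0 : 0 ≤ ∫ z, defect p (fderiv ℝ g z) := by
    refine circ_main h1 hgc (M := M + ‖z₀‖) (by positivity) ?_ ?_
    · intro z hz
      rw [hgd]
      apply hM
      have : ‖z‖ ≤ ‖z + z₀‖ + ‖z₀‖ := by
        calc ‖z‖ = ‖(z + z₀) - z₀‖ := by rw [add_sub_cancel_right]
          _ ≤ _ := norm_sub_le _ _
      linarith
    · intro z w hzw
      exact H (z + z₀) (w + z₀) (by rwa [add_sub_cancel_right, add_sub_cancel_right])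
  simp only [hgd] at h0
  rwa [integral_add_right_eq_self (fun z => defect p (fderiv ℝ f z)) z₀] at h0

end Pool.Agent.Helper28.Iw
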