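import Mathlib

/-!
# Pointwise inequalities of Burkholder type

`cst p = max p (p/(p-1)) - 1` is the constant `p^* - 1`.
-/

namespace Pool.Agent.Helper28.Iw

open Set

/-- weighted AM-GM used for the end point values -/
theorem amgm {q : ℝ} (h0 : 0 < q) (h1 : q ≤ 1) : (1 + q) ^ (1 - q) * q ^ q ≤ 1 := by
  have h := Real.geom_mean_le_arith_mean2_weighted (w₁ := 1 - q) (w₂ := q) (p₁ := 1 + q) (p₂ := q)
    (by linarith) h0.le (by linarith) h0.le (by ring)
  calc (1 + q) ^ (1 - q) * q ^ q ≤ (1 - q) * (1 + q) + q * q := h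
    _ = 1 := by ring

/-- A three point argument: `D'' ` nondecreasing, `D (b) = D' (b) = 0`, `D a ≥ 0`. -/
theorem three_point {a b : ℝ} (hab : a < b) {D D' D'' : ℝ → ℝ} (hc : ContinuousOn D (Icc a b))
    (h1 : ∀ t ∈ Ioc a b, HasDerivAt D (D' t) t) (h2 : ∀ t ∈ Ioc a b, HasDerivAt D' (D'' t) t)
    (hmono : ∀ s ∈ Ioc a b, ∀ t ∈ Ioc a b, s ≤ t → D'' s ≤ D'' t)
    (ha : 0 ≤ D a) (hb : D b = 0) (hb' : D' b = 0) : ∀ t ∈ Icc a b, 0 ≤ D t := by
  intro t ht
  by_contra hneg
  rw [not_le] at hneg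
  have hat : a < t := by
    rcases ht.1.eq_or_lt with h | h
    · rw [← h] at hneg; linarith
    · exact h
  have htb : t < b := by
    rcases ht.2.eq_or_lt with h | h
    · rw [h, hb] at hneg; linarith
    · exact h
  -- mean values
  obtain ⟨x1, hx1, e1⟩ := exists_hasDerivAt_eq_slope D D' hat
    (hc.mono (Icc_subset_Icc_right htb.le)) (fun s hs => h1 s ⟨hs.1, (hs.2.trans htb).le⟩)
  obtain ⟨x2, hx2, e2⟩ := exists_hasDerivAt_eq_slope D D' htb
    (hc.mono (Icc_subset_Icc_left hat.le)) (fun s hs => h1 s ⟨hat.trans hs.1, hs.2.le⟩)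
  have n1 : D' x1 < 0 := by
    rw [e1]; exact div_neg_of_neg_of_pos (by linarith) (by linarith)
  have n2 : 0 < D' x2 := by
    rw [e2]; exact div_pos (by linarith) (by linarith)
  have h12 : x1 < x2 := hx1.2.trans hx2.1
  have cont' : ∀ s ∈ Ioc a b, ContinuousAt D' s := fun s hs => (h2 s hs).continuousAt
  obtain ⟨y1, hy1, e3⟩ := exists_hasDerivAt_eq_slope D' D'' h12
    (fun s hs => (cont' s ⟨hx1.1.trans_le hs.1, (hs.2.trans hx2.2.le)⟩).continuousWithinAt)
    (fun s hs => h2 s ⟨hx1.1.trans hs.1, (hs.2.trans hx2.2).le⟩)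
  obtain ⟨y2, hy2, e4⟩ := exists_hasDerivAt_eq_slope D' D'' hx2.2
    (fun s hs => (cont' s ⟨(hx1.1.trans h12).trans_le hs.1, hs.2⟩).continuousWithinAt)
    (fun s hs => h2 s ⟨(hx1.1.trans h12).trans hs.1, hs.2.le⟩)
  have n3 : 0 < D'' y1 := by
    rw [e3]; exact div_pos (by linarith) (by linarith)
  have n4 : D'' y2 < 0 := by
    rw [e4, hb']; exact div_neg_of_neg_of_pos (by linarith) (by linarith [hx2.2])
  have := hmono y1 ⟨hx1.1.trans hy1.1, (hy1.2.trans hx2.2).le⟩ y2
    ⟨(hx1.1.trans h12).trans hy2.1, hy2.2.le⟩ (hy1.2.trans hy2.1).le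
  linarith

/-- convex side of the same argument -/
theorem convex_side {a b : ℝ} (hab : a < b) {D D' D'' : ℝ → ℝ} (hc : ContinuousOn D (Icc a b))
    (h1 : ∀ t ∈ Ico a b, HasDerivAt D (D' t) t) (h2 : ∀ t ∈ Ico a b, HasDerivAt D' (D'' t) t)
    (hpos : ∀ t ∈ Ico a b, 0 ≤ D'' t)
    (ha : D a = 0) (ha' : D' a = 0) : ∀ t ∈ Icc a b, 0 ≤ D t := by
  intro t ht
  by_contra hneg
  rw [not_le] at hneg
  have hat : a < t := by
    rcases ht.1.eq_or_lt with h | h
    · rw [← h, ha] at hneg; linarith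
    · exact h
  obtain ⟨x1, hx1, e1⟩ := exists_hasDerivAt_eq_slope D D' hat
    (hc.mono (Icc_subset_Icc_right ht.2)) (fun s hs => h1 s ⟨hs.1.le, (hs.2.trans_le ht.2)⟩)
  have n1 : D' x1 < 0 := by
    rw [e1]; exact div_neg_of_neg_of_pos (by linarith) (by linarith)
  have hx1b : x1 < b := hx1.2.trans_le ht.2
  obtain ⟨y1, hy1, e3⟩ := exists_hasDerivAt_eq_slope D' D'' hx1.1
    (fun s hs => ((h2 s ⟨hs.1, hs.2.trans_lt hx1b⟩).continuousAt).continuousWithinAt)
    (fun s hs => h2 s ⟨hs.1.le, hs.2.trans hx1b⟩)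
  have n3 : D'' y1 < 0 := by
    rw [e3, ha']; exact div_neg_of_neg_of_pos (by linarith) (by linarith [hx1.1])
  have := hpos y1 ⟨hy1.1.le, hy1.2.trans hx1b⟩
  linarith

theorem hd_one_sub {q t : ℝ} (ht : t < 1 ∨ 1 ≤ q) :
    HasDerivAt (fun t : ℝ => (1 - t) ^ q) (-(q * (1 - t) ^ (q - 1))) t := by
  have h1 : HasDerivAt (fun t : ℝ => 1 - t) (-1) t := by
    simpa using (hasDerivAt_id t).const_sub 1
  have h2 := h1.rpow_const (p := q) (by
    rcases ht with h | h
    · left; linarith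
    · right; exact h)
  convert h2 using 1
  ring

theorem hd_pow {q t : ℝ} (ht : 0 < t ∨ 1 ≤ q) :
    HasDerivAt (fun t : ℝ => t ^ q) (q * t ^ (q - 1)) t :=
  Real.hasDerivAt_rpow_const (by
    rcases ht with h | h
    · left; exact h.ne'
    · right; exact h)

/-- Burkholder's inequality, normalised, `p ≥ 2`. -/
theorem burk_ge_two {p : ℝ} (hp : 2 ≤ p) {t : ℝ} (ht0 : 0 ≤ t) (ht1 : t ≤ 1) :
    p ^ (2 - p) * (p - 1) ^ (p - 1) * (p * t - 1) ≤ (p - 1) ^ p * t ^ p - (1 - t) ^ p := by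
  set α : ℝ := p ^ (2 - p) * (p - 1) ^ (p - 1) with hα
  have hp0 : 0 < p := by linarith
  have hp1 : 0 < p - 1 := by linarith
  set D : ℝ → ℝ := fun t => (p - 1) ^ p * t ^ p - (1 - t) ^ p - α * (p * t - 1) with hD
  set D' : ℝ → ℝ := fun t => (p - 1) ^ p * (p * t ^ (p - 1)) + p * (1 - t) ^ (p - 1) - α * p with hD'
  set D'' : ℝ → ℝ := fun t => (p - 1) ^ p * (p * ((p - 1) * t ^ (p - 1 - 1))) -
    p * ((p - 1) * (1 - t) ^ (p - 1 - 1)) with hD''
  have h1 : ∀ t, HasDerivAt D (D' t) t := by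
    intro t
    have a1 := (hd_pow (q := p) (t := t) (Or.inr (by linarith))).const_mul ((p - 1) ^ p)
    have a2 := hd_one_sub (q := p) (t := t) (Or.inr (by linarith))
    have a3 : HasDerivAt (fun t : ℝ => α * (p * t - 1)) (α * p) t := by
      have := (((hasDerivAt_id t).const_mul p).sub_const 1).const_mul α
      simpa using this
    exact ((a1.sub a2).sub a3).congr_deriv (by simp only [hD']; ring)
  have h2 : ∀ t, HasDerivAt D' (D'' t) t := by
    intro t
    have a1 := ((hd_pow (q := p - 1) (t := t) (Or.inr (by linarith))).const_mul p).const_mul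
      ((p - 1) ^ p)
    have a2 := (hd_one_sub (q := p - 1) (t := t) (Or.inr (by linarith))).const_mul p
    exact ((a1.add a2).sub_const (α * p)).congr_deriv (by simp only [hD'']; ring)
  have hcont : Continuous D := continuous_iff_continuousAt.2 fun t => (h1 t).continuousAt
  have hp' : 1 - 1 / p = (p - 1) / p := by field_simp
  have e0 : D (1 / p) = 0 := by
    simp only [hD, hp']
    rw [← Real.mul_rpow hp1.le (by positivity), mul_one_div, mul_one_div_cancel hp0.ne']
    ring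
  have e1 : D' (1 / p) = 0 := by
    simp only [hD', hp']
    have a1 : (p - 1) ^ p = (p - 1) ^ (p - 1) * (p - 1) := by
      rw [← Real.rpow_add_one hp1.ne']; congr 1; ring
    have a2 : (1 / p : ℝ) ^ (p - 1) = p ^ (1 - p) := by
      rw [one_div, Real.inv_rpow hp0.le, ← Real.rpow_neg hp0.le]; congr 1; ring
    have a3 : ((p - 1) / p : ℝ) ^ (p - 1) = (p - 1) ^ (p - 1) * p ^ (1 - p) := by
      rw [Real.div_rpow hp1.le hp0.le, div_eq_mul_inv, ← Real.rpow_neg hp0.le]; congr 2; ring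
    have a4 : p ^ (2 - p) = p ^ (1 - p) * p := by
      rw [← Real.rpow_add_one hp0.ne']; congr 1; ring
    rw [a1, a2, a3, hα, a4]
    ring
  have hα1 : 1 ≤ α := by
    have h := amgm (q := 1 / (p - 1)) (by positivity) (by
      rw [div_le_one hp1]; linarith)
    have b1 : 1 + 1 / (p - 1) = p / (p - 1) := by field_simp; ring
    have b2 : 1 - 1 / (p - 1) = (p - 2) / (p - 1) := by field_simp; ring
    rw [b1, b2] at h
    have h3 := Real.rpow_le_rpow (by positivity) h hp1.le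
    rw [Real.one_rpow, Real.mul_rpow (by positivity) (by positivity), ← Real.rpow_mul (by positivity),
      ← Real.rpow_mul (by positivity), div_mul_cancel₀ _ hp1.ne', one_div_mul_cancel hp1.ne',
      Real.rpow_one, Real.div_rpow hp0.le hp1.le] at h3
    have b3 : (p - 1) ^ (p - 1) = (p - 1) ^ (p - 2) * (p - 1) := by
      rw [← Real.rpow_add_one hp1.ne']; congr 1; ring
    have b4 : p ^ (2 - p) = (p ^ (p - 2))⁻¹ := by
      rw [← Real.rpow_neg hp0.le]; congr 1; ring
    have c1 : 0 < p ^ (p - 2) := by positivity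
    have c2 : 0 < (p - 1) ^ (p - 2) := by positivity
    rw [hα, b3, b4]
    rw [div_mul_div_comm, mul_one, div_le_one (by positivity)] at h3
    rw [inv_mul_eq_div, le_div_iff₀ c1, one_mul]
    exact h3
  have e2 : 0 ≤ D 0 := by
    simp only [hD, sub_zero, mul_zero, zero_sub, Real.one_rpow]
    rw [Real.zero_rpow hp0.ne']
    linarith
  have hmono : ∀ s ∈ Ioc (0 : ℝ) (1 / p), ∀ t ∈ Ioc (0 : ℝ) (1 / p), s ≤ t → D'' s ≤ D'' t := by
    intro s hs t ht hst
    have h1p : 1 / p ≤ 1 := by rw [div_le_one hp0]; linarith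
    have c1 : s ^ (p - 1 - 1) ≤ t ^ (p - 1 - 1) := Real.rpow_le_rpow hs.1.le hst (by linarith)
    have c2 : (1 - t) ^ (p - 1 - 1) ≤ (1 - s) ^ (p - 1 - 1) :=
      Real.rpow_le_rpow (by linarith [ht.2]) (by linarith) (by linarith)
    simp only [hD'']
    have c3 : 0 ≤ (p - 1) ^ p := by positivity
    gcongr
  have hle1 : 1 / p < 1 := by rw [div_lt_one hp0]; linarith
  have key : ∀ t ∈ Icc (0 : ℝ) 1, 0 ≤ D t := by
    intro t ht
    rcases le_total t (1 / p) with h | h
    · exact three_point (by positivity) hcont.continuousOn (fun t _ => h1 t) (fun t _ => h2 t)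
        hmono e2 e0 e1 t ⟨ht.1, h⟩
    · refine convex_side hle1 hcont.continuousOn (fun t _ => h1 t) (fun t _ => h2 t) ?_ e0 e1 t
        ⟨h, ht.2⟩
      intro t ht
      have ht0 : 0 < t := lt_of_lt_of_le (by positivity) ht.1
      have c1 : (1 / p) ^ (p - 1 - 1) ≤ t ^ (p - 1 - 1) :=
        Real.rpow_le_rpow (by positivity) ht.1 (by linarith)
      have c2 : (1 - t) ^ (p - 1 - 1) ≤ ((p - 1) / p) ^ (p - 1 - 1) :=
        Real.rpow_le_rpow (by linarith [ht.2]) (by rw [← hp']; linarith [ht.1]) (by linarith)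
      have c3 : ((p - 1) / p) ^ (p - 1 - 1) = (p - 1) ^ (p - 1 - 1) * (1 / p) ^ (p - 1 - 1) := by
        rw [← Real.mul_rpow hp1.le (by positivity)]; congr 1; ring
      have c4 : (p - 1) ^ (p - 1 - 1) ≤ (p - 1) ^ p :=
        Real.rpow_le_rpow_of_exponent_le (by linarith) (by linarith)
      have c5 : 0 ≤ (1 / p) ^ (p - 1 - 1) := by positivity
      have c6 : (1 - t) ^ (p - 1 - 1) ≤ (p - 1) ^ p * t ^ (p - 1 - 1) := by
        calc (1 - t) ^ (p - 1 - 1) ≤ (p - 1) ^ (p - 1 - 1) * (1 / p) ^ (p - 1 - 1) := by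
              rw [← c3]; exact c2
          _ ≤ (p - 1) ^ p * (1 / p) ^ (p - 1 - 1) := by gcongr
          _ ≤ _ := by gcongr
      simp only [hD'']
      have : 0 ≤ p * (p - 1) * ((p - 1) ^ p * t ^ (p - 1 - 1) - (1 - t) ^ (p - 1 - 1)) := by
        have : 0 ≤ (p - 1) ^ p * t ^ (p - 1 - 1) - (1 - t) ^ (p - 1 - 1) := by linarith
        positivity
      linarith
  have := key t ⟨ht0, ht1⟩
  simp only [hD] at this
  linarith

/-- Burkholder's inequality, normalised, `1 < p ≤ 2`. -/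
theorem burk_le_two {p : ℝ} (h1p : 1 < p) (hp : p ≤ 2) {s : ℝ} (ht0 : 0 ≤ s) (ht1 : s ≤ 1) :
    p ^ (2 - p) * (p / (p - 1) * (1 - s) - 1) ≤ (1 / (p - 1)) ^ p * (1 - s) ^ p - s ^ p := by
  set α : ℝ := p ^ (2 - p) with hα
  have hp0 : 0 < p := by linarith
  have hp1 : 0 < p - 1 := by linarith
  set c : ℝ := 1 / (p - 1) with hc
  have hc0 : 0 < c := by positivity
  set D : ℝ → ℝ := fun s => c ^ p * (1 - s) ^ p - s ^ p - α * (p / (p - 1) * (1 - s) - 1) with hD
  set D' : ℝ → ℝ := fun s => -(c ^ p * (p * (1 - s) ^ (p - 1))) - p * s ^ (p - 1) +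
    α * (p / (p - 1)) with hD'
  set D'' : ℝ → ℝ := fun s => c ^ p * (p * ((p - 1) * (1 - s) ^ (p - 1 - 1))) -
    p * ((p - 1) * s ^ (p - 1 - 1)) with hD''
  have h1 : ∀ s, HasDerivAt D (D' s) s := by
    intro t
    have a1 := (hd_one_sub (q := p) (t := t) (Or.inr (by linarith))).const_mul (c ^ p)
    have a2 := hd_pow (q := p) (t := t) (Or.inr (by linarith))
    have a3 : HasDerivAt (fun t : ℝ => α * (p / (p - 1) * (1 - t) - 1)) (-(α * (p / (p - 1)))) t := by
      have := (((((hasDerivAt_id t).const_sub 1).const_mul (p / (p - 1))).sub_const 1).const_mul α)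
      exact this.congr_deriv (by ring)
    exact ((a1.sub a2).sub a3).congr_deriv (by simp only [hD']; ring)
  have h2 : ∀ s, 0 < s → s < 1 → HasDerivAt D' (D'' s) s := by
    intro t ht0 ht1
    have a1 := ((hd_one_sub (q := p - 1) (t := t) (Or.inl ht1)).const_mul p).const_mul (c ^ p)
    have a2 := (hd_pow (q := p - 1) (t := t) (Or.inl ht0)).const_mul p
    exact ((a1.neg.sub a2).add_const (α * (p / (p - 1)))).congr_deriv (by simp only [hD'']; ring)
  have hcont : Continuous D := continuous_iff_continuousAt.2 fun t => (h1 t).continuousAt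
  have hp' : 1 - 1 / p = (p - 1) / p := by field_simp
  have e0 : D (1 / p) = 0 := by
    simp only [hD, hp']
    rw [← Real.mul_rpow hc0.le (by positivity)]
    have : c * ((p - 1) / p) = 1 / p := by rw [hc]; field_simp
    rw [this]
    field_simp
    ring
  have e1 : D' (1 / p) = 0 := by
    simp only [hD', hp']
    have a1 : c ^ p = c ^ (p - 1) * c := by
      rw [← Real.rpow_add_one hc0.ne']; congr 1; ring
    have a2 : c ^ (p - 1) * ((p - 1) / p) ^ (p - 1) = (1 / p) ^ (p - 1) := by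
      rw [← Real.mul_rpow hc0.le (by positivity)]
      congr 1; rw [hc]; field_simp
    have a3 : (1 / p : ℝ) ^ (p - 1) = p ^ (1 - p) := by
      rw [one_div, Real.inv_rpow hp0.le, ← Real.rpow_neg hp0.le]; congr 1; ring
    have a4 : α = p ^ (1 - p) * p := by
      rw [hα, ← Real.rpow_add_one hp0.ne']; congr 1; ring
    have a5 : c ^ p * (p * ((p - 1) / p) ^ (p - 1)) = c * p * p ^ (1 - p) := by
      rw [a1]
      calc c ^ (p - 1) * c * (p * ((p - 1) / p) ^ (p - 1)) =
          (c ^ (p - 1) * ((p - 1) / p) ^ (p - 1)) * c * p := by ring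
        _ = _ := by rw [a2, a3]; ring
    rw [a5, a3, a4, hc]
    field_simp
    ring
  have e2 : 0 ≤ D 0 := by
    simp only [hD, sub_zero, mul_one, Real.one_rpow]
    rw [Real.zero_rpow hp0.ne', sub_zero]
    have h := amgm (q := p - 1) hp1 (by linarith)
    have b1 : 1 + (p - 1) = p := by ring
    have b2 : 1 - (p - 1) = 2 - p := by ring
    rw [b1, b2, ← hα] at h
    have b3 : c ^ (p - 1) = ((p - 1) ^ (p - 1))⁻¹ := by
      rw [hc, one_div, Real.inv_rpow hp1.le]
    have b4 : 0 < (p - 1) ^ (p - 1) := by positivity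
    have b5 : α ≤ c ^ (p - 1) := by
      rw [b3, ← one_div, le_div_iff₀ b4]; exact h
    have b6 : c ^ p = c ^ (p - 1) * c := by
      rw [← Real.rpow_add_one hc0.ne']; congr 1; ring
    have b7 : p / (p - 1) - 1 = c := by rw [hc]; field_simp; ring
    rw [b7, b6]
    nlinarith
  have hlt1 : 1 / p < 1 := by rw [div_lt_one hp0]; linarith
  have hpp : 0 < 1 / p := by positivity
  have hmono : ∀ s ∈ Ioc (0 : ℝ) (1 / p), ∀ t ∈ Ioc (0 : ℝ) (1 / p), s ≤ t → D'' s ≤ D'' t := by
    intro s hs t ht hst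
    have c1 : t ^ (p - 1 - 1) ≤ s ^ (p - 1 - 1) :=
      Real.rpow_le_rpow_of_nonpos hs.1 hst (by linarith)
    have c2 : (1 - s) ^ (p - 1 - 1) ≤ (1 - t) ^ (p - 1 - 1) :=
      Real.rpow_le_rpow_of_nonpos (by linarith [ht.2]) (by linarith) (by linarith)
    simp only [hD'']
    have c3 : 0 ≤ c ^ p := by positivity
    gcongr
  have key : ∀ t ∈ Icc (0 : ℝ) 1, 0 ≤ D t := by
    intro t ht
    rcases le_total t (1 / p) with h | h
    · exact three_point (by positivity) hcont.continuousOn (fun t _ => h1 t)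
        (fun t ht => h2 t ht.1 (ht.2.trans_lt hlt1)) hmono e2 e0 e1 t ⟨ht.1, h⟩
    · refine convex_side hlt1 hcont.continuousOn (fun t _ => h1 t)
        (fun t ht => h2 t (hpp.trans_le ht.1) ht.2) ?_ e0 e1 t ⟨h, ht.2⟩
      intro t ht
      have ht0 : 0 < t := lt_of_lt_of_le (by positivity) ht.1
      have c1 : t ^ (p - 1 - 1) ≤ (1 / p) ^ (p - 1 - 1) :=
        Real.rpow_le_rpow_of_nonpos hpp ht.1 (by linarith)
      have c2 : ((p - 1) / p) ^ (p - 1 - 1) ≤ (1 - t) ^ (p - 1 - 1) :=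
        Real.rpow_le_rpow_of_nonpos (by linarith [ht.2]) (by rw [← hp']; linarith [ht.1])
          (by linarith)
      have c3 : ((p - 1) / p) ^ (p - 1 - 1) = (p - 1) ^ (p - 1 - 1) * (1 / p) ^ (p - 1 - 1) := by
        rw [← Real.mul_rpow hp1.le (by positivity)]; congr 1; ring
      have c4 : 1 ≤ c ^ p * (p - 1) ^ (p - 1 - 1) := by
        have d1 : c ^ p = ((p - 1) ^ p)⁻¹ := by rw [hc, one_div, Real.inv_rpow hp1.le]
        rw [d1, inv_mul_eq_div, ← Real.rpow_sub hp1]
        refine Real.one_le_rpow_of_pos_of_le_one_of_nonpos hp1 (by linarith) (by linarith)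
      have c5 : 0 ≤ (1 / p) ^ (p - 1 - 1) := by positivity
      have c7 : 0 ≤ c ^ p := by positivity
      have c6 : t ^ (p - 1 - 1) ≤ c ^ p * (1 - t) ^ (p - 1 - 1) := by
        calc t ^ (p - 1 - 1) ≤ 1 * (1 / p) ^ (p - 1 - 1) := by rw [one_mul]; exact c1
          _ ≤ (c ^ p * (p - 1) ^ (p - 1 - 1)) * (1 / p) ^ (p - 1 - 1) := by gcongr
          _ = c ^ p * ((p - 1) / p) ^ (p - 1 - 1) := by rw [c3]; ring
          _ ≤ _ := by gcongr
      simp only [hD'']
      have : 0 ≤ p * (p - 1) * (c ^ p * (1 - t) ^ (p - 1 - 1) - t ^ (p - 1 - 1)) := by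
        have : 0 ≤ c ^ p * (1 - t) ^ (p - 1 - 1) - t ^ (p - 1 - 1) := by linarith
        positivity
      linarith
  have := key s ⟨ht0, ht1⟩
  simp only [hD] at this
  linarith

end Pool.Agent.Helper28.Iw
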