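import Mathlib

/-!
# Polar coordinates and frames
-/

namespace Pool.Agent.Helper28.Iw

open Set MeasureTheory Filter Topology

theorem integrableOn_polar {F : ℂ → ℝ} (hF : Continuous F) {M : ℝ}
    (hM : ∀ z : ℂ, M ≤ ‖z‖ → F z = 0) :
    IntegrableOn (fun q : ℝ × ℝ => q.1 * F (q.1 * Complex.exp (q.2 * Complex.I)))
      (Ioi 0 ×ˢ Ioo (-Real.pi) Real.pi) := by
  have hc : Continuous (fun q : ℝ × ℝ => q.1 * F (q.1 * Complex.exp (q.2 * Complex.I))) := by
    fun_prop
  have h1 : IntegrableOn (fun q : ℝ × ℝ => q.1 * F (q.1 * Complex.exp (q.2 * Complex.I)))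
      (Icc 0 (max M 0) ×ˢ Icc (-Real.pi) Real.pi) :=
    hc.continuousOn.integrableOn_compact (isCompact_Icc.prod isCompact_Icc)
  refine h1.of_forall_sdiff_eq_zero (measurableSet_Ioi.prod measurableSet_Ioo) ?_
  rintro ⟨r, θ⟩ ⟨⟨hr, hθ⟩, hn⟩
  have hr0 : 0 < r := hr
  have hrM : M ≤ r := by
    by_contra h
    rw [not_le] at h
    exact hn ⟨⟨hr0.le, h.le.trans (le_max_left _ _)⟩, Ioo_subset_Icc_self hθ⟩
  have : F (r * Complex.exp (θ * Complex.I)) = 0 := by
    apply hM
    rw [norm_mul, Complex.norm_exp_ofReal_mul_I, mul_one, Complex.norm_real, Real.norm_eq_abs,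
      abs_of_pos hr0]
    exact hrM
  simp only [this, mul_zero]

theorem integrableOn_ray {F : ℂ → ℝ} (hF : Continuous F) {M : ℝ}
    (hM : ∀ z : ℂ, M ≤ ‖z‖ → F z = 0) (θ : ℝ) :
    IntegrableOn (fun r : ℝ => r * F (r * Complex.exp (θ * Complex.I))) (Ioi 0) := by
  have hc : Continuous (fun r : ℝ => r * F (r * Complex.exp (θ * Complex.I))) := by
    fun_prop
  have h1 : IntegrableOn (fun r : ℝ => r * F (r * Complex.exp (θ * Complex.I)))
      (Icc 0 (max M 0)) := hc.continuousOn.integrableOn_compact isCompact_Icc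
  refine h1.of_forall_sdiff_eq_zero measurableSet_Ioi ?_
  rintro r ⟨hr, hn⟩
  have hr0 : 0 < r := hr
  have hrM : M ≤ r := by
    by_contra h
    rw [not_le] at h
    exact hn ⟨hr0.le, h.le.trans (le_max_left _ _)⟩
  have : F (r * Complex.exp (θ * Complex.I)) = 0 := by
    apply hM
    rw [norm_mul, Complex.norm_exp_ofReal_mul_I, mul_one, Complex.norm_real, Real.norm_eq_abs,
      abs_of_pos hr0]
    exact hrM
  simp only [this, mul_zero]

theorem integral_polar {F : ℂ → ℝ} (hF : Continuous F) {M : ℝ}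
    (hM : ∀ z : ℂ, M ≤ ‖z‖ → F z = 0) :
    ∫ z, F z = ∫ θ in Ioo (-Real.pi) Real.pi, ∫ r in Ioi (0 : ℝ),
      r * F (r * Complex.exp (θ * Complex.I)) := by
  rw [← Complex.integral_comp_polarCoord_symm]
  have e1 : ∀ q : ℝ × ℝ, q.1 • F (Complex.polarCoord.symm q) =
      q.1 * F (q.1 * Complex.exp (q.2 * Complex.I)) := by
    intro q
    rw [Complex.polarCoord_symm_apply, Complex.exp_mul_I, smul_eq_mul]
    push_cast
    rfl
  simp only [e1]
  have e2 : polarCoord.target = Ioi (0 : ℝ) ×ˢ Ioo (-Real.pi) Real.pi := rfl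
  rw [e2]
  have hi := integrableOn_polar hF hM
  rw [IntegrableOn, Measure.volume_eq_prod, ← Measure.prod_restrict] at hi
  rw [Measure.volume_eq_prod, ← Measure.prod_restrict, integral_prod_symm _ hi]

theorem integral_polar' {F : ℂ → ℝ} (hF : Continuous F) {M : ℝ}
    (hM : ∀ z : ℂ, M ≤ ‖z‖ → F z = 0) :
    ∫ z, F z = ∫ r in Ioi (0 : ℝ), ∫ θ in Ioo (-Real.pi) Real.pi,
      r * F (r * Complex.exp (θ * Complex.I)) := by
  rw [← Complex.integral_comp_polarCoord_symm]
  have e1 : ∀ q : ℝ × ℝ, q.1 • F (Complex.polarCoord.symm q) =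
      q.1 * F (q.1 * Complex.exp (q.2 * Complex.I)) := by
    intro q
    rw [Complex.polarCoord_symm_apply, Complex.exp_mul_I, smul_eq_mul]
    push_cast
    rfl
  simp only [e1]
  have e2 : polarCoord.target = Ioi (0 : ℝ) ×ˢ Ioo (-Real.pi) Real.pi := rfl
  rw [e2]
  have hi := integrableOn_polar hF hM
  rw [IntegrableOn, Measure.volume_eq_prod, ← Measure.prod_restrict] at hi
  rw [Measure.volume_eq_prod, ← Measure.prod_restrict, integral_prod _ hi]

/-! ### frames -/

theorem frame_exp (L : ℂ →L[ℝ] ℂ) (θ : ℝ) :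
    L (Complex.exp (θ * Complex.I)) = Real.cos θ * L 1 + Real.sin θ * L Complex.I := by
  have : Complex.exp (θ * Complex.I) = Real.cos θ • (1 : ℂ) + Real.sin θ • Complex.I := by
    rw [Complex.exp_mul_I]; simp
  rw [this, map_add, map_smul, map_smul]; simp

theorem frame_I_exp (L : ℂ →L[ℝ] ℂ) (θ : ℝ) :
    L (Complex.I * Complex.exp (θ * Complex.I)) =
      -Real.sin θ * L 1 + Real.cos θ * L Complex.I := by
  have : Complex.I * Complex.exp (θ * Complex.I) =
      (-Real.sin θ) • (1 : ℂ) + Real.cos θ • Complex.I := by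
    rw [Complex.exp_mul_I]; simp
    linear_combination (Complex.sin θ) * Complex.I_mul_I
  rw [this, map_add, map_smul, map_smul]; simp

theorem norm_frame_sub (L : ℂ →L[ℝ] ℂ) (θ : ℝ) {w : ℂ} (hw : ‖w‖ = 1) :
    ‖L (Complex.exp (θ * Complex.I)) * w - Complex.I *
      (L (Complex.I * Complex.exp (θ * Complex.I)) * w)‖ = ‖L 1 - Complex.I * L Complex.I‖ := by
  have : L (Complex.exp (θ * Complex.I)) * w - Complex.I *
      (L (Complex.I * Complex.exp (θ * Complex.I)) * w) =
      w * Complex.exp (θ * Complex.I) * (L 1 - Complex.I * L Complex.I) := by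
    rw [frame_exp, frame_I_exp, Complex.exp_mul_I]
    push_cast
    linear_combination (w * Complex.sin θ * L Complex.I) * Complex.I_mul_I
  rw [this, norm_mul, norm_mul, hw, Complex.norm_exp_ofReal_mul_I]
  ring

theorem norm_frame_add (L : ℂ →L[ℝ] ℂ) (θ : ℝ) {w : ℂ} (hw : ‖w‖ = 1) :
    ‖L (Complex.exp (θ * Complex.I)) * w + Complex.I *
      (L (Complex.I * Complex.exp (θ * Complex.I)) * w)‖ = ‖L 1 + Complex.I * L Complex.I‖ := by
  have : L (Complex.exp (θ * Complex.I)) * w + Complex.I *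
      (L (Complex.I * Complex.exp (θ * Complex.I)) * w) =
      w * Complex.exp (-θ * Complex.I) * (L 1 + Complex.I * L Complex.I) := by
    rw [frame_exp, frame_I_exp, Complex.exp_mul_I, Complex.cos_neg, Complex.sin_neg]
    push_cast
    linear_combination (w * Complex.sin θ * L Complex.I) * Complex.I_mul_I
  rw [this, norm_mul, norm_mul, hw]
  have h2 : ‖Complex.exp (-θ * Complex.I)‖ = 1 := by
    have := Complex.norm_exp_ofReal_mul_I (-θ)
    push_cast at this
    exact this
  rw [h2]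
  ring

end Pool.Agent.Helper28.Iw
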