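import Pool.Agent.Helper28.Iw.Point2

/-!
# The one dimensional inequality on a ray
-/

namespace Pool.Agent.Helper28.Iw

open Set MeasureTheory Filter Topology

/-- the derivative of `|R|^p r^(2-p)` -/
noncomputable def dV (p R x r : ℝ) : ℝ :=
  p * |R| ^ (p - 2) * R * x * r ^ (2 - p) + |R| ^ p * ((2 - p) * r ^ (1 - p))

theorem hasDerivAt_V {p : ℝ} (h1 : 1 < p) {R : ℝ → ℝ} {x r : ℝ} (hr : 0 < r)
    (hR : HasDerivAt R x r) :
    HasDerivAt (fun r => |R r| ^ p * r ^ (2 - p)) (dV p (R r) x r) r := by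
  have a1 := (hasDerivAt_abs_rpow (R r) h1).comp r hR
  have a2 := hd_pow (q := 2 - p) (Or.inl hr)
  refine (a1.mul a2).congr_deriv ?_
  have : 2 - p - 1 = 1 - p := by ring
  rw [dV, this]
  simp only [Function.comp]

theorem abs_rpow_sub_two_mul {p : ℝ} (h1 : 1 < p) (R : ℝ) : |R| ^ (p - 2) * |R| = |R| ^ (p - 1) := by
  rcases eq_or_ne R 0 with rfl | h
  · rw [abs_zero, mul_zero, Real.zero_rpow (by linarith)]
  · rw [← Real.rpow_add_one (abs_pos.2 h).ne']
    congr 1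
    ring

theorem abs_dV_le {p : ℝ} (h1 : 1 < p) {C R x r : ℝ} (hC : 0 ≤ C) (hr : 0 < r)
    (hR : |R| ≤ C * r) (hx : |x| ≤ C) :
    |dV p R x r| ≤ (p + |2 - p|) * C ^ p * r := by
  have hp0 : 0 < p := by linarith
  have e1 : |p * |R| ^ (p - 2) * R * x * r ^ (2 - p)| =
      p * (|R| ^ (p - 1) * |x|) * r ^ (2 - p) := by
    rw [← abs_rpow_sub_two_mul h1, abs_mul, abs_mul, abs_mul, abs_mul, abs_of_pos hp0,
      abs_of_nonneg (show 0 ≤ |R| ^ (p - 2) by positivity),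
      abs_of_nonneg (show 0 ≤ r ^ (2 - p) by positivity)]
    ring
  have e2 : |(|R| ^ p * ((2 - p) * r ^ (1 - p)))| = |R| ^ p * (|2 - p| * r ^ (1 - p)) := by
    rw [abs_mul, abs_mul, abs_of_nonneg (show 0 ≤ |R| ^ p by positivity),
      abs_of_nonneg (show 0 ≤ r ^ (1 - p) by positivity)]
  have b1 : |R| ^ (p - 1) ≤ C ^ (p - 1) * r ^ (p - 1) := by
    rw [← Real.mul_rpow hC hr.le]
    exact Real.rpow_le_rpow (abs_nonneg _) hR (by linarith)
  have b2 : |R| ^ p ≤ C ^ p * r ^ p := by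
    rw [← Real.mul_rpow hC hr.le]
    exact Real.rpow_le_rpow (abs_nonneg _) hR hp0.le
  have c1 : C ^ p = C ^ (p - 1) * C := by
    rcases hC.eq_or_lt with h | h
    · rw [← h, mul_zero, Real.zero_rpow hp0.ne']
    · rw [← Real.rpow_add_one h.ne']; congr 1; ring
  have c2 : r ^ (p - 1) * r ^ (2 - p) = r := by
    rw [← Real.rpow_add hr]
    calc r ^ (p - 1 + (2 - p)) = r ^ (1 : ℝ) := by congr 1; ring
      _ = r := Real.rpow_one r
  have c3 : r ^ p * r ^ (1 - p) = r := by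
    rw [← Real.rpow_add hr]
    calc r ^ (p + (1 - p)) = r ^ (1 : ℝ) := by congr 1; ring
      _ = r := Real.rpow_one r
  calc |dV p R x r| ≤ p * (|R| ^ (p - 1) * |x|) * r ^ (2 - p) +
        |R| ^ p * (|2 - p| * r ^ (1 - p)) := by
        rw [dV, ← e1, ← e2]; exact abs_add_le _ _
    _ ≤ p * ((C ^ (p - 1) * r ^ (p - 1)) * C) * r ^ (2 - p) +
        (C ^ p * r ^ p) * (|2 - p| * r ^ (1 - p)) := by
        gcongr
    _ = p * (C ^ (p - 1) * C) * (r ^ (p - 1) * r ^ (2 - p)) +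
        C ^ p * |2 - p| * (r ^ p * r ^ (1 - p)) := by ring
    _ = (p + |2 - p|) * C ^ p * r := by rw [c2, c3, ← c1]; ring

/-- The boundary term vanishes. -/
theorem integral_dV {p : ℝ} (h1 : 1 < p) {R R' : ℝ → ℝ} {C M : ℝ} (hC : 0 ≤ C)
    (hR : ∀ r : ℝ, 0 < r → HasDerivAt R (R' r) r) (hRm : Measurable R) (hR'm : Measurable R')
    (h0 : R 0 = 0) (hRC : ∀ r : ℝ, 0 < r → |R r| ≤ C * r) (hR'C : ∀ r : ℝ, |R' r| ≤ C)
    (hM : ∀ r : ℝ, M ≤ r → R r = 0) :
    IntegrableOn (fun r => dV p (R r) (R' r) r) (Ioi 0) ∧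
      ∫ r in Ioi (0 : ℝ), dV p (R r) (R' r) r = 0 := by
  have hp0 : 0 < p := by linarith
  have hint : IntegrableOn (fun r => dV p (R r) (R' r) r) (Ioi 0) := by
    have hmeas : Measurable (fun r => dV p (R r) (R' r) r) := by
      unfold dV
      fun_prop
    have h1' : IntegrableOn (fun r => dV p (R r) (R' r) r) (Ioc 0 (max M 0)) := by
      refine Measure.integrableOn_of_bounded (M := (p + |2 - p|) * C ^ p * max M 0)
        (by simp) hmeas.aestronglyMeasurable ?_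
      filter_upwards [ae_restrict_mem measurableSet_Ioc] with r hr
      rw [Real.norm_eq_abs]
      calc |dV p (R r) (R' r) r| ≤ (p + |2 - p|) * C ^ p * r :=
            abs_dV_le h1 hC hr.1 (hRC r hr.1) (hR'C r)
        _ ≤ _ := by
            have := hr.2
            gcongr
    refine h1'.of_forall_sdiff_eq_zero measurableSet_Ioi ?_
    intro r hr
    have hrM : M ≤ r := by
      by_contra h
      rw [not_le] at h
      exact hr.2 ⟨hr.1, h.le.trans (le_max_left _ _)⟩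
    have : R r = 0 := hM r hrM
    rw [dV, this, abs_zero, Real.zero_rpow hp0.ne']
    ring
  refine ⟨hint, ?_⟩
  have hlim : Tendsto (fun r => |R r| ^ p * r ^ (2 - p)) atTop (𝓝 0) := by
    refine (tendsto_congr' ?_).2 tendsto_const_nhds
    filter_upwards [eventually_ge_atTop M] with r hr
    rw [hM r hr, abs_zero, Real.zero_rpow hp0.ne', zero_mul]
  have hcont : ContinuousWithinAt (fun r => |R r| ^ p * r ^ (2 - p)) (Ici 0) 0 := by
    rw [ContinuousWithinAt, h0, abs_zero, Real.zero_rpow hp0.ne', zero_mul]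
    have hsq : Tendsto (fun r : ℝ => C ^ p * r ^ 2) (𝓝[Ici 0] 0) (𝓝 0) := by
      have : Continuous (fun r : ℝ => C ^ p * r ^ 2) := by fun_prop
      have h := (this.tendsto 0).mono_left (nhdsWithin_le_nhds (s := Ici (0 : ℝ)))
      simpa using h
    refine tendsto_of_tendsto_of_tendsto_of_le_of_le' tendsto_const_nhds hsq ?_ ?_
    · filter_upwards [self_mem_nhdsWithin] with r hr
      have : 0 ≤ r := hr
      positivity
    · filter_upwards [self_mem_nhdsWithin] with r hr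
      have hr0 : 0 ≤ r := hr
      rcases hr0.eq_or_lt with h | h
      · rw [← h, h0, abs_zero, Real.zero_rpow hp0.ne', zero_mul]; simp
      · have b2 : |R r| ^ p ≤ C ^ p * r ^ p := by
          rw [← Real.mul_rpow hC h.le]
          exact Real.rpow_le_rpow (abs_nonneg _) (hRC r h) hp0.le
        have c3 : r ^ p * r ^ (2 - p) = r ^ 2 := by
          rw [← Real.rpow_add h, ← Real.rpow_natCast]; congr 1; push_cast; ring
        calc |R r| ^ p * r ^ (2 - p) ≤ (C ^ p * r ^ p) * r ^ (2 - p) := by gcongr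
          _ = C ^ p * r ^ 2 := by rw [mul_assoc, c3]
  rw [integral_Ioi_of_hasDerivAt_of_tendsto hcont (fun r hr => hasDerivAt_V h1 hr (hR r hr))
    hint hlim, h0, abs_zero, Real.zero_rpow hp0.ne']
  ring

/-- algebra: the radial integrand dominates a multiple of the derivative. -/
theorem radial_algebra {p : ℝ} (h1 : 1 < p) {τ : ℝ}
    (hτ : 0 ≤ (cst p + 1) * (p - 2) * τ / p + (cst p - 1) * τ ^ 2) {R x r : ℝ} (hr : 0 < r) :
    (|τ| ^ (p - 2) * τ * (cst p + 1) / p) * dV p R x r ≤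
      r * ((cst p + 1) * (|τ * R / r| ^ (p - 2) * (τ * R / r) * x) +
        (cst p - 1) * |τ * R / r| ^ p) := by
  have hp0 : 0 < p := by linarith
  have a1 : |τ * R / r| ^ (p - 2) = |τ| ^ (p - 2) * |R| ^ (p - 2) * r ^ (2 - p) := by
    rw [abs_div, abs_mul, abs_of_pos hr, Real.div_rpow (by positivity) hr.le,
      Real.mul_rpow (abs_nonneg _) (abs_nonneg _), div_eq_mul_inv, ← Real.rpow_neg hr.le]
    congr 2
    ring
  have a2 : |τ * R / r| ^ p = |τ| ^ p * |R| ^ p * r ^ (-p) := by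
    rw [abs_div, abs_mul, abs_of_pos hr, Real.div_rpow (by positivity) hr.le,
      Real.mul_rpow (abs_nonneg _) (abs_nonneg _), div_eq_mul_inv, ← Real.rpow_neg hr.le]
  have a3 : r * r ^ (-p) = r ^ (1 - p) := by
    rw [mul_comm, ← Real.rpow_add_one hr.ne']; congr 1; ring
  have a4 : |τ| ^ p = |τ| ^ (p - 2) * τ ^ 2 := by
    rcases eq_or_ne τ 0 with rfl | h
    · rw [abs_zero, Real.zero_rpow hp0.ne']; ring
    · rw [← sq_abs, ← Real.rpow_natCast, ← Real.rpow_add (abs_pos.2 h)]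
      congr 1; push_cast; ring
  have key : r * ((cst p + 1) * (|τ * R / r| ^ (p - 2) * (τ * R / r) * x) +
        (cst p - 1) * |τ * R / r| ^ p) - (|τ| ^ (p - 2) * τ * (cst p + 1) / p) * dV p R x r =
      |R| ^ p * r ^ (1 - p) * |τ| ^ (p - 2) *
        ((cst p + 1) * (p - 2) * τ / p + (cst p - 1) * τ ^ 2) := by
    have l1 : r * ((cst p + 1) * (|τ * R / r| ^ (p - 2) * (τ * R / r) * x)) =
        (cst p + 1) * (|τ| ^ (p - 2) * τ) * (|R| ^ (p - 2) * R * x * r ^ (2 - p)) := by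
      rw [a1]; field_simp
    have l2 : r * ((cst p - 1) * |τ * R / r| ^ p) =
        (cst p - 1) * (|τ| ^ (p - 2) * τ ^ 2) * |R| ^ p * r ^ (1 - p) := by
      rw [a2, ← a3, a4]; ring
    rw [mul_add, l1, l2, dV]
    field_simp
    ring
  have : 0 ≤ |R| ^ p * r ^ (1 - p) * |τ| ^ (p - 2) *
        ((cst p + 1) * (p - 2) * τ / p + (cst p - 1) * τ ^ 2) := by
    apply mul_nonneg _ hτ
    positivity
  linarith

/-- The condition on the turning speed. -/
theorem turn_ok {p : ℝ} (h1 : 1 < p) {τ : ℝ} (ha : 2 < p → 0 ≤ τ ∨ τ ≤ -1)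
    (hb : p < 2 → τ ≤ 0 ∨ 1 ≤ τ) :
    0 ≤ (cst p + 1) * (p - 2) * τ / p + (cst p - 1) * τ ^ 2 := by
  rcases lt_trichotomy p 2 with h | h | h
  · rw [cst_le_two h1 h.le]
    have hp1 : 0 < p - 1 := by linarith
    have hp0 : 0 < p := by linarith
    have e : (1 / (p - 1) + 1) * (p - 2) * τ / p + (1 / (p - 1) - 1) * τ ^ 2 =
        (2 - p) * (τ * (τ - 1)) / (p - 1) := by
      field_simp; ring
    rw [e]
    apply div_nonneg _ hp1.le
    apply mul_nonneg (by linarith)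
    rcases hb h with h | h
    · nlinarith
    · nlinarith
  · subst h
    rw [cst_ge_two le_rfl]
    norm_num
  · rw [cst_ge_two h.le]
    have hp0 : 0 < p := by linarith
    have e : (p - 1 + 1) * (p - 2) * τ / p + (p - 1 - 1) * τ ^ 2 =
        (p - 2) * (τ * (τ + 1)) := by
      field_simp; ring
    rw [e]
    apply mul_nonneg (by linarith)
    rcases ha h with h | h
    · nlinarith
    · nlinarith

/-- The inequality on a ray. -/
theorem ray_nonneg {p : ℝ} (h1 : 1 < p) {τ : ℝ}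
    (hτ : 0 ≤ (cst p + 1) * (p - 2) * τ / p + (cst p - 1) * τ ^ 2)
    {R R' η : ℝ → ℝ} {C M : ℝ} (hC : 0 ≤ C)
    (hR : ∀ r : ℝ, 0 < r → HasDerivAt R (R' r) r) (hRm : Measurable R) (hR'm : Measurable R')
    (h0 : R 0 = 0) (hRC : ∀ r : ℝ, 0 < r → |R r| ≤ C * r) (hR'C : ∀ r : ℝ, |R' r| ≤ C)
    (hM : ∀ r : ℝ, M ≤ r → R r = 0)
    {G : ℝ → ℝ} (hG : IntegrableOn G (Ioi 0))
    (hGe : ∀ r : ℝ, 0 < r → G r = r * (cst p ^ p * ‖(⟨R' r + τ * R r / r, -η r⟩ : ℂ)‖ ^ p -
      ‖(⟨R' r - τ * R r / r, η r⟩ : ℂ)‖ ^ p)) :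
    0 ≤ ∫ r in Ioi (0 : ℝ), G r := by
  obtain ⟨β, hβ, hP⟩ := pointwise h1
  obtain ⟨hi, h00⟩ := integral_dV h1 hC hR hRm hR'm h0 hRC hR'C hM
  set K : ℝ := β * (|τ| ^ (p - 2) * τ * (cst p + 1) / p) with hK
  have : ∫ r in Ioi (0 : ℝ), K * dV p (R r) (R' r) r ≤ ∫ r in Ioi (0 : ℝ), G r := by
    refine setIntegral_mono_on (hi.const_mul K) hG measurableSet_Ioi ?_
    intro r hr
    have hr0 : 0 < r := hr
    rw [hGe r hr0, hK, mul_assoc]
    have a := radial_algebra h1 hτ (R := R r) (x := R' r) hr0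
    have b := hP (R' r) (τ * R r / r) (η r)
    calc _ ≤ β * (r * ((cst p + 1) * (|τ * R r / r| ^ (p - 2) * (τ * R r / r) * R' r) +
        (cst p - 1) * |τ * R r / r| ^ p)) := by gcongr
      _ = r * (β * ((cst p + 1) * (|τ * R r / r| ^ (p - 2) * (τ * R r / r) * R' r) +
        (cst p - 1) * |τ * R r / r| ^ p)) := by ring
      _ ≤ _ := by gcongr
  rw [integral_const_mul, h00, mul_zero] at this
  exact this

end Pool.Agent.Helper28.Iw
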