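import Pool.Agent.Helper28.Iw.Reduce

/-!
# Maps sending rays into lines
-/

namespace Pool.Agent.Helper28.Iw

open Set MeasureTheory Filter Topology

theorem hd_re {g : ℝ → ℂ} {g' : ℂ} {t : ℝ} (h : HasDerivAt g g' t) :
    HasDerivAt (fun t => (g t).re) g'.re t :=
  Complex.reCLM.hasFDerivAt.comp_hasDerivAt t h

theorem hd_im {g : ℝ → ℂ} {g' : ℂ} {t : ℝ} (h : HasDerivAt g g' t) :
    HasDerivAt (fun t => (g t).im) g'.im t :=
  Complex.imCLM.hasFDerivAt.comp_hasDerivAt t h

/-- the unit vector `e^{-iω}` -/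
noncomputable def uv (ω : ℝ) : ℂ := Complex.exp (-(ω * Complex.I))

theorem norm_uv (ω : ℝ) : ‖uv ω‖ = 1 := by
  have := Complex.norm_exp_ofReal_mul_I (-ω)
  push_cast at this
  rw [uv, ← neg_mul]
  exact this

theorem uv_mul (s ω : ℝ) : (s * Complex.exp (ω * Complex.I)) * uv ω = s := by
  rw [uv, mul_assoc, ← Complex.exp_add, add_neg_cancel, Complex.exp_zero, mul_one]

theorem hasDerivAt_uv {ω : ℝ → ℝ} {τ θ : ℝ} (h : HasDerivAt ω τ θ) :
    HasDerivAt (fun t => uv (ω t)) (-(τ * Complex.I) * uv (ω θ)) θ := by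
  have h1 : HasDerivAt (fun t : ℝ => -((ω t : ℂ) * Complex.I)) (-(τ * Complex.I)) θ :=
    (h.ofReal_comp.mul_const Complex.I).neg
  have h2 := h1.cexp
  exact h2.congr_deriv (by rw [uv]; ring)

section

variable {f : ℂ → ℂ} (hf : ContDiff ℝ 1 f)

include hf

theorem hasDerivAt_radial (θ r : ℝ) :
    HasDerivAt (fun r : ℝ => f (r * Complex.exp (θ * Complex.I)))
      (fderiv ℝ f (r * Complex.exp (θ * Complex.I)) (Complex.exp (θ * Complex.I))) r := by
  have h1 : HasDerivAt (fun r : ℝ => (r : ℂ) * Complex.exp (θ * Complex.I))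
      (Complex.exp (θ * Complex.I)) r := by
    have := (Complex.ofRealCLM.hasDerivAt (x := r)).mul_const (Complex.exp (θ * Complex.I))
    simpa using this
  have h2 := (hf.differentiable one_ne_zero (r * Complex.exp (θ * Complex.I))).hasFDerivAt
  exact h2.comp_hasDerivAt r h1

theorem hasDerivAt_angular (θ r : ℝ) :
    HasDerivAt (fun t : ℝ => f (r * Complex.exp (t * Complex.I)))
      (r * fderiv ℝ f (r * Complex.exp (θ * Complex.I))
        (Complex.I * Complex.exp (θ * Complex.I))) θ := by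
  have h0 : HasDerivAt (fun t : ℝ => (t : ℂ) * Complex.I) (Complex.I) θ := by
    have := (Complex.ofRealCLM.hasDerivAt (x := θ)).mul_const Complex.I
    simpa using this
  have h1 : HasDerivAt (fun t : ℝ => (r : ℂ) * Complex.exp (t * Complex.I))
      (r • (Complex.I * Complex.exp (θ * Complex.I))) θ := by
    refine (h0.cexp.const_mul (r : ℂ)).congr_deriv ?_
    rw [Complex.real_smul]; ring
  have h2 := (hf.differentiable one_ne_zero (r * Complex.exp (θ * Complex.I))).hasFDerivAt
  have h3 := h2.comp_hasDerivAt θ h1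
  rw [map_smul, Complex.real_smul] at h3
  exact h3

theorem exists_lip (hc : HasCompactSupport f) :
    ∃ C : ℝ, 0 ≤ C ∧ (∀ z, ‖fderiv ℝ f z‖ ≤ C) ∧ ∀ z, ‖f z - f 0‖ ≤ C * ‖z‖ := by
  have hD : Continuous (fderiv ℝ f) := hf.continuous_fderiv one_ne_zero
  obtain ⟨C, hC⟩ := (hc.fderiv ℝ).exists_bound_of_continuous hD
  refine ⟨C, (norm_nonneg _).trans (hC 0), hC, fun z => ?_⟩
  have := Convex.norm_image_sub_le_of_norm_fderiv_le (𝕜 := ℝ) (f := f) (s := univ) (x := 0) (y := z)
    (C := C) (fun x _ => hf.differentiable one_ne_zero x) (fun x _ => hC x) convex_univ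
    (mem_univ _) (mem_univ _)
  simpa using this

end

theorem im_zero_of_ray {f : ℂ → ℂ} {ω : ℝ → ℝ}
    (hray : ∀ r : ℝ, 0 < r → ∀ θ : ℝ, ∃ s : ℝ,
      f (r * Complex.exp (θ * Complex.I)) = s * Complex.exp (ω θ * Complex.I))
    {r : ℝ} (hr : 0 < r) (θ : ℝ) :
    (f (r * Complex.exp (θ * Complex.I)) * uv (ω θ)).im = 0 := by
  obtain ⟨s, hs⟩ := hray r hr θ
  rw [hs, uv_mul, Complex.ofReal_im]

theorem rays_main {p : ℝ} (h1 : 1 < p) {f : ℂ → ℂ} (hf : ContDiff ℝ 1 f)
    (hc : HasCompactSupport f) {ω : ℝ → ℝ} (hω : Differentiable ℝ ω)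
    (hray : ∀ r : ℝ, 0 < r → ∀ θ : ℝ, ∃ s : ℝ,
      f (r * Complex.exp (θ * Complex.I)) = s * Complex.exp (ω θ * Complex.I))
    (ha : 2 < p → ∀ θ, 0 ≤ deriv ω θ ∨ deriv ω θ ≤ -1)
    (hb : p < 2 → ∀ θ, deriv ω θ ≤ 0 ∨ 1 ≤ deriv ω θ) :
    0 ≤ ∫ z, defect p (fderiv ℝ f z) := by
  refine of_rays h1 hf hc fun θ hG => ?_
  set τ : ℝ := deriv ω θ with hτd
  have hτω : HasDerivAt ω τ θ := (hω θ).hasDerivAt
  have hτ : 0 ≤ (cst p + 1) * (p - 2) * τ / p + (cst p - 1) * τ ^ 2 :=
    turn_ok h1 (fun h => ha h θ) (fun h => hb h θ)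
  set e : ℂ := Complex.exp (θ * Complex.I) with he
  set w : ℂ := uv (ω θ) with hw
  have hw1 : ‖w‖ = 1 := norm_uv _
  have he1 : ‖e‖ = 1 := Complex.norm_exp_ofReal_mul_I θ
  have hD : Continuous (fderiv ℝ f) := hf.continuous_fderiv one_ne_zero
  set R : ℝ → ℝ := fun r => (f (r * e) * w).re with hR
  set R' : ℝ → ℝ := fun r => (fderiv ℝ f (r * e) e * w).re with hR'
  set η : ℝ → ℝ := fun r => (fderiv ℝ f (r * e) (Complex.I * e) * w).re with hη
  have hder : ∀ r : ℝ, HasDerivAt (fun r : ℝ => f (r * e) * w) (fderiv ℝ f (r * e) e * w) r :=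
    fun r => (hasDerivAt_radial hf θ r).mul_const w
  have hRd : ∀ r : ℝ, HasDerivAt R (R' r) r := fun r => hd_re (hder r)
  have hRc : Continuous R := continuous_iff_continuousAt.2 fun r => (hRd r).continuousAt
  have hR'c : Continuous R' := by
    have : Continuous (fun r : ℝ => fderiv ℝ f (r * e)) := hD.comp (by fun_prop)
    have h2 : Continuous (fun r : ℝ => fderiv ℝ f (r * e) e * w) := by fun_prop
    exact Complex.continuous_re.comp h2
  obtain ⟨C, hC0, hC1, hC2⟩ := exists_lip hf hc
  obtain ⟨M, hM0, hM, -⟩ := exists_radius hc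
  -- imaginary part of the radial derivative
  have him1 : ∀ r : ℝ, 0 < r → (fderiv ℝ f (r * e) e * w).im = 0 := by
    intro r hr
    have a1 : HasDerivAt (fun r : ℝ => (f (r * e) * w).im) (fderiv ℝ f (r * e) e * w).im r :=
      hd_im (hder r)
    have a2 : (fun r : ℝ => (f (r * e) * w).im) =ᶠ[𝓝 r] fun _ => (0 : ℝ) := by
      filter_upwards [lt_mem_nhds hr] with s hs
      exact im_zero_of_ray hray hs θ
    have a3 : HasDerivAt (fun r : ℝ => (f (r * e) * w).im) 0 r :=
      (hasDerivAt_const r (0 : ℝ)).congr_of_eventuallyEq a2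
    exact a1.unique a3
  -- imaginary part of the angular derivative
  have hang : ∀ r : ℝ, HasDerivAt (fun t : ℝ => f (r * Complex.exp (t * Complex.I)) * uv (ω t))
      (r * fderiv ℝ f (r * e) (Complex.I * e) * w + f (r * e) * (-(τ * Complex.I) * w)) θ :=
    fun r => (hasDerivAt_angular hf θ r).mul (hasDerivAt_uv hτω)
  have him0 : ∀ r : ℝ, 0 ≤ r → ∀ t : ℝ,
      (f (r * Complex.exp (t * Complex.I)) * uv (ω t)).im = 0 := by
    intro r hr t
    rcases hr.eq_or_lt with h | h
    · have hcont : Continuous (fun s : ℝ => (f (s * Complex.exp (t * Complex.I)) * uv (ω t)).im) := by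
        have := hf.continuous
        have h2 : Continuous (fun s : ℝ => f (s * Complex.exp (t * Complex.I)) * uv (ω t)) := by
          fun_prop
        exact Complex.continuous_im.comp h2
      have l1 : Tendsto (fun s : ℝ => (f (s * Complex.exp (t * Complex.I)) * uv (ω t)).im)
          (𝓝[>] 0) (𝓝 (f ((0 : ℝ) * Complex.exp (t * Complex.I)) * uv (ω t)).im) :=
        (hcont.tendsto 0).mono_left nhdsWithin_le_nhds
      have l2 : Tendsto (fun s : ℝ => (f (s * Complex.exp (t * Complex.I)) * uv (ω t)).im)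
          (𝓝[>] 0) (𝓝 0) := by
        refine (tendsto_congr' ?_).2 tendsto_const_nhds
        filter_upwards [self_mem_nhdsWithin] with s hs
        exact im_zero_of_ray hray hs t
      rw [← h]
      exact tendsto_nhds_unique l1 l2
    · exact im_zero_of_ray hray h t
  have him2 : ∀ r : ℝ, 0 ≤ r →
      (r * fderiv ℝ f (r * e) (Complex.I * e) * w + f (r * e) * (-(τ * Complex.I) * w)).im = 0 := by
    intro r hr
    have a1 := hd_im (hang r)
    have a2 : (fun t : ℝ => (f (r * Complex.exp (t * Complex.I)) * uv (ω t)).im) =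
        fun _ => (0 : ℝ) := by
      funext t
      exact him0 r hr t
    rw [a2] at a1
    exact a1.unique (hasDerivAt_const θ (0 : ℝ))
  have him3 : ∀ r : ℝ, 0 ≤ r → r * (fderiv ℝ f (r * e) (Complex.I * e) * w).im = τ * R r := by
    intro r hr
    have := him2 r hr
    rw [Complex.add_im, mul_assoc, Complex.im_ofReal_mul] at this
    have e1 : (f (r * e) * (-(τ * Complex.I) * w)).im = -(τ * R r) := by
      have : f (r * e) * (-(τ * Complex.I) * w) = -((τ : ℂ) * (Complex.I * (f (r * e) * w))) := by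
        ring
      rw [this, Complex.neg_im, Complex.im_ofReal_mul, Complex.I_mul_im]
    rw [e1] at this
    linarith
  -- the formula for the integrand
  have hGe : ∀ r : ℝ, 0 < r → r * defect p (fderiv ℝ f (r * e)) =
      r * (cst p ^ p * ‖(⟨R' r + τ * R r / r, -η r⟩ : ℂ)‖ ^ p -
      ‖(⟨R' r - τ * R r / r, η r⟩ : ℂ)‖ ^ p) := by
    intro r hr
    have b1 := norm_frame_sub (fderiv ℝ f (r * e)) θ hw1
    have b2 := norm_frame_add (fderiv ℝ f (r * e)) θ hw1
    rw [defect, ← b1, ← b2]
    have i1 := him1 r hr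
    have i2 : (fderiv ℝ f (r * e) (Complex.I * e) * w).im = τ * R r / r := by
      rw [eq_div_iff hr.ne', mul_comm]; exact him3 r hr.le
    have c1 : fderiv ℝ f (r * e) e * w - Complex.I * (fderiv ℝ f (r * e) (Complex.I * e) * w) =
        (⟨R' r + τ * R r / r, -η r⟩ : ℂ) := by
      apply Complex.ext
      · rw [Complex.sub_re, Complex.I_mul_re, i2]
        simp only [hR']; ring
      · rw [Complex.sub_im, Complex.I_mul_im, i1]
        simp only [hη]; ring
    have c2 : fderiv ℝ f (r * e) e * w + Complex.I * (fderiv ℝ f (r * e) (Complex.I * e) * w) =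
        (⟨R' r - τ * R r / r, η r⟩ : ℂ) := by
      apply Complex.ext
      · rw [Complex.add_re, Complex.I_mul_re, i2]
        simp only [hR']; ring
      · rw [Complex.add_im, Complex.I_mul_im, i1]
        simp only [hη]; ring
    rw [c1, c2]
  rcases eq_or_ne τ 0 with h0 | h0
  · -- pointwise
    refine setIntegral_nonneg measurableSet_Ioi fun r hr => ?_
    have hr0 : 0 < r := hr
    rw [hGe r hr0]
    obtain ⟨β, hβ, hP⟩ := pointwise h1
    have := hP (R' r) 0 (η r)
    have hpp : p ≠ 0 := by linarith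
    rw [abs_zero, Real.zero_rpow hpp] at this
    simp only [h0, zero_mul, zero_div]
    apply mul_nonneg hr0.le
    linarith
  · -- integration by parts
    have hf0 : f 0 * w = 0 := by
      have hR0 : τ * R 0 = 0 := by
        have := him3 0 le_rfl
        rw [zero_mul] at this
        exact this.symm
      have hR00 : R 0 = 0 := by
        rcases mul_eq_zero.1 hR0 with h | h
        · exact absurd h h0
        · exact h
      have hre : (f 0 * w).re = 0 := by
        have := hR00
        simp only [hR] at this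
        simpa using this
      have him : (f 0 * w).im = 0 := by
        have := him0 0 le_rfl θ
        simpa using this
      exact Complex.ext hre him
    have hf00 : f 0 = 0 := by
      rcases mul_eq_zero.1 hf0 with h | h
      · exact h
      · rw [h, norm_zero] at hw1; exact absurd hw1 (by norm_num)
    refine ray_nonneg h1 hτ (R := R) (R' := R') (η := η) (C := C) (M := M) hC0
      (fun r _ => hRd r) hRc.measurable hR'c.measurable ?_ ?_ ?_ ?_ hG hGe
    · simp only [hR]; simp [hf00]
    · intro r hr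
      calc |R r| ≤ ‖f (r * e) * w‖ := Complex.abs_re_le_norm _
        _ = ‖f (r * e) - f 0‖ := by rw [norm_mul, hw1, mul_one, hf00, sub_zero]
        _ ≤ C * ‖(r : ℂ) * e‖ := hC2 _
        _ = C * r := by
          rw [norm_mul, he1, mul_one, Complex.norm_real, Real.norm_eq_abs, abs_of_pos hr]
    · intro r
      calc |R' r| ≤ ‖fderiv ℝ f (r * e) e * w‖ := Complex.abs_re_le_norm _
        _ = ‖fderiv ℝ f (r * e) e‖ := by rw [norm_mul, hw1, mul_one]
        _ ≤ ‖fderiv ℝ f (r * e)‖ * ‖e‖ := ContinuousLinearMap.le_opNorm _ _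
        _ ≤ C * 1 := by rw [he1]; exact mul_le_mul_of_nonneg_right (hC1 _) zero_le_one
        _ = C := mul_one C
    · intro r hr
      have : f (r * e) = 0 := by
        apply hM
        rw [norm_mul, he1, mul_one, Complex.norm_real, Real.norm_eq_abs]
        exact hr.trans (le_abs_self r)
      simp only [hR, this, zero_mul, Complex.zero_re]

end Pool.Agent.Helper28.Iw
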