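import Pool.Agent.Helper28.Iw.Radial
import Pool.Agent.Helper28.Iw.Polar

/-!
# Reduction to an integral in polar coordinates
-/

namespace Pool.Agent.Helper28.Iw

open Set MeasureTheory Filter Topology

/-- `(p^*-1)^p |2∂f|^p - |2∂̄f|^p` as a function of the differential -/
noncomputable def defect (p : ℝ) (L : ℂ →L[ℝ] ℂ) : ℝ :=
  cst p ^ p * ‖L 1 - Complex.I * L Complex.I‖ ^ p - ‖L 1 + Complex.I * L Complex.I‖ ^ p

theorem continuous_defect {p : ℝ} (h1 : 1 < p) : Continuous (defect p) := by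
  have hp : 0 ≤ p := by linarith
  unfold defect
  have a1 : Continuous (fun L : ℂ →L[ℝ] ℂ => ‖L 1 - Complex.I * L Complex.I‖) := by fun_prop
  have a2 : Continuous (fun L : ℂ →L[ℝ] ℂ => ‖L 1 + Complex.I * L Complex.I‖) := by fun_prop
  exact ((a1.rpow_const fun _ => Or.inr hp).const_mul _).sub (a2.rpow_const fun _ => Or.inr hp)

theorem exists_radius {f : ℂ → ℂ} (hc : HasCompactSupport f) :
    ∃ M : ℝ, 0 < M ∧ (∀ z : ℂ, M ≤ ‖z‖ → f z = 0) ∧ ∀ z : ℂ, M ≤ ‖z‖ → fderiv ℝ f z = 0 := by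
  obtain ⟨M, hM0, hM⟩ := hc.isCompact.isBounded.exists_pos_norm_lt
  refine ⟨M, hM0, fun z hz => ?_, fun z hz => ?_⟩
  · by_contra h
    exact absurd (hM z (subset_tsupport _ h)) (not_lt.2 hz)
  · by_contra h
    have : z ∈ tsupport (fderiv ℝ f) := subset_tsupport _ h
    exact absurd (hM z (tsupport_fderiv_subset ℝ this)) (not_lt.2 hz)

theorem reduce {p : ℝ} (h1 : 1 < p) {f : ℂ → ℂ} (hf : ContDiff ℝ 1 f) (hc : HasCompactSupport f)
    (h : 0 ≤ ∫ z, defect p (fderiv ℝ f z)) :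
    ∫ z, ‖(1 / 2 : ℂ) * (fderiv ℝ f z 1 + Complex.I * fderiv ℝ f z Complex.I)‖ ^ p
        ≤ (max p (p / (p - 1)) - 1) ^ p *
          ∫ z, ‖(1 / 2 : ℂ) * (fderiv ℝ f z 1 - Complex.I * fderiv ℝ f z Complex.I)‖ ^ p := by
  have hp : 0 ≤ p := by linarith
  have hp0 : p ≠ 0 := by linarith
  obtain ⟨M, hM0, -, hM⟩ := exists_radius hc
  have hD : Continuous (fderiv ℝ f) := hf.continuous_fderiv one_ne_zero
  have hint : ∀ s : ℂ, Integrable (fun z => ‖fderiv ℝ f z 1 + s * fderiv ℝ f z Complex.I‖ ^ p) := by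
    intro s
    have hcont : Continuous (fun z => ‖fderiv ℝ f z 1 + s * fderiv ℝ f z Complex.I‖ ^ p) := by
      have : Continuous (fun z => ‖fderiv ℝ f z 1 + s * fderiv ℝ f z Complex.I‖) := by fun_prop
      exact this.rpow_const fun _ => Or.inr hp
    refine hcont.integrable_of_hasCompactSupport ?_
    refine HasCompactSupport.intro (isCompact_closedBall (0 : ℂ) M) ?_
    intro z hz
    rw [Metric.mem_closedBall, dist_zero_right, not_le] at hz
    rw [hM z hz.le]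
    simp [Real.zero_rpow hp0]
  have i1 := hint Complex.I
  have i2 := hint (-Complex.I)
  have e2 : (fun z => ‖fderiv ℝ f z 1 + -Complex.I * fderiv ℝ f z Complex.I‖ ^ p) =
      fun z => ‖fderiv ℝ f z 1 - Complex.I * fderiv ℝ f z Complex.I‖ ^ p := by
    funext z
    rw [neg_mul, ← sub_eq_add_neg]
  rw [e2] at i2
  have hdef : ∫ z, defect p (fderiv ℝ f z) =
      cst p ^ p * (∫ z, ‖fderiv ℝ f z 1 - Complex.I * fderiv ℝ f z Complex.I‖ ^ p) -
        ∫ z, ‖fderiv ℝ f z 1 + Complex.I * fderiv ℝ f z Complex.I‖ ^ p := by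
    unfold defect
    rw [integral_sub (i2.const_mul _) i1, integral_const_mul]
  have hhalf : ∀ w : ℂ, ‖(1 / 2 : ℂ) * w‖ ^ p = (1 / 2 : ℝ) ^ p * ‖w‖ ^ p := by
    intro w
    rw [norm_mul, Real.mul_rpow (norm_nonneg _) (norm_nonneg _)]
    norm_num
  simp only [hhalf]
  rw [integral_const_mul, integral_const_mul]
  have hpos : 0 < (1 / 2 : ℝ) ^ p := by positivity
  have : ∫ z, ‖fderiv ℝ f z 1 + Complex.I * fderiv ℝ f z Complex.I‖ ^ p ≤
      cst p ^ p * ∫ z, ‖fderiv ℝ f z 1 - Complex.I * fderiv ℝ f z Complex.I‖ ^ p := by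
    rw [hdef] at h; linarith
  calc _ ≤ (1 / 2 : ℝ) ^ p * (cst p ^ p *
        ∫ z, ‖fderiv ℝ f z 1 - Complex.I * fderiv ℝ f z Complex.I‖ ^ p) := by gcongr
    _ = _ := by rw [cst]; ring

theorem defect_zero {p : ℝ} (h1 : 1 < p) : defect p 0 = 0 := by
  have : p ≠ 0 := by linarith
  simp [defect, Real.zero_rpow this]

/-- enough to check each ray -/
theorem of_rays {p : ℝ} (h1 : 1 < p) {f : ℂ → ℂ} (hf : ContDiff ℝ 1 f) (hc : HasCompactSupport f)
    (h : ∀ θ : ℝ, IntegrableOn (fun r : ℝ => r * defect p (fderiv ℝ f (r * Complex.exp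
      (θ * Complex.I)))) (Ioi 0) → 0 ≤ ∫ r in Ioi (0 : ℝ), r * defect p (fderiv ℝ f (r * Complex.exp
      (θ * Complex.I)))) : 0 ≤ ∫ z, defect p (fderiv ℝ f z) := by
  obtain ⟨M, hM0, -, hM⟩ := exists_radius hc
  have hD : Continuous (fderiv ℝ f) := hf.continuous_fderiv one_ne_zero
  have hF : Continuous (fun z => defect p (fderiv ℝ f z)) := (continuous_defect h1).comp hD
  have hFM : ∀ z : ℂ, M ≤ ‖z‖ → defect p (fderiv ℝ f z) = 0 := by
    intro z hz
    rw [hM z hz, defect_zero h1]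
  rw [integral_polar hF hFM]
  refine integral_nonneg fun θ => ?_
  exact h θ (integrableOn_ray hF hFM θ)

end Pool.Agent.Helper28.Iw
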