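import Pool.Agent.Helper28.Iw.Wind

/-!
# The primitive `|τ|^(p-2) τ ρ^p r^(2-p)`
-/

namespace Pool.Agent.Helper28.Iw

open Set MeasureTheory Filter Topology

/-- the primitive -/
noncomputable def Vf (p : ℝ) (f : ℂ → ℂ) (r : ℝ) : ℝ :=
  |tau f r| ^ (p - 2) * tau f r * (|rho f r| ^ p * r ^ (2 - p))

/-- radial component of the differential in the frame of `f` -/
noncomputable def xr (f : ℂ → ℂ) (r : ℝ) : ℝ := (star (f r) * fderiv ℝ f r 1).re / ‖f r‖

/-- the derivative of `Vf` -/
noncomputable def dVf (p : ℝ) (f : ℂ → ℂ) (r : ℝ) : ℝ :=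
  |tau f r| ^ (p - 2) * tau f r * dV p (rho f r) (xr f r) r

theorem rho_nonneg (f : ℂ → ℂ) (r : ℝ) : 0 ≤ rho f r := norm_nonneg _

theorem tau_of_rho_zero {f : ℂ → ℂ} {r : ℝ} (h : rho f r = 0) : tau f r = 0 := by
  rw [tau, h, div_zero]

section

variable {f : ℂ → ℂ} (hf : ContDiff ℝ 1 f) (H : ∀ z w : ℂ, ‖z‖ = ‖w‖ → ‖f z‖ = ‖f w‖)

include hf H in
theorem hasDerivAt_rho (θ : ℝ) {r : ℝ} (hρ : 0 < rho f r) :
    HasDerivAt (rho f) ((star (f (r * Complex.exp (θ * Complex.I))) *
      fderiv ℝ f (r * Complex.exp (θ * Complex.I)) (Complex.exp (θ * Complex.I))).re /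
        rho f r) r := by
  have h1 := (hasDerivAt_radial hf θ r).norm_sq
  have h2 : (fun t : ℝ => ‖f (t * Complex.exp (θ * Complex.I))‖ ^ 2) = fun t => rho f t ^ 2 := by
    funext t
    rw [norm_f_z H]
  rw [h2] at h1
  have h3 := h1.sqrt (by positivity)
  have h4 : (fun t => Real.sqrt (rho f t ^ 2)) = rho f := by
    funext t
    rw [Real.sqrt_sq (rho_nonneg f t)]
  rw [h4, Real.sqrt_sq (rho_nonneg f r), Complex.inner] at h3
  refine h3.congr_deriv ?_
  rw [mul_div_mul_left _ _ (two_ne_zero)]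
  congr 2
  rw [mul_comm]
  rfl

include hf H in
theorem hasDerivAt_rho' {r : ℝ} (hρ : 0 < rho f r) : HasDerivAt (rho f) (xr f r) r := by
  have := hasDerivAt_rho hf H 0 hρ
  simpa [xr, rho] using this

include hf H in
theorem xr_eq (θ : ℝ) {r : ℝ} (hρ : 0 < rho f r) :
    (star (f (r * Complex.exp (θ * Complex.I))) *
      fderiv ℝ f (r * Complex.exp (θ * Complex.I)) (Complex.exp (θ * Complex.I))).re /
        rho f r = xr f r :=
  (hasDerivAt_rho hf H θ hρ).unique (hasDerivAt_rho' hf H hρ)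

theorem abs_xr_le {C : ℝ} (hC : ∀ z, ‖fderiv ℝ f z‖ ≤ C) (r : ℝ) : |xr f r| ≤ C := by
  have hC0 : 0 ≤ C := (norm_nonneg _).trans (hC 0)
  rw [xr, abs_div, abs_norm]
  rcases (norm_nonneg (f r)).eq_or_lt with h | h
  · rw [← h, div_zero]; exact hC0
  · rw [div_le_iff₀ h]
    calc _ ≤ ‖star (f r) * fderiv ℝ f r 1‖ := Complex.abs_re_le_norm _
      _ = ‖fderiv ℝ f r 1‖ * ‖f r‖ := by rw [norm_mul, norm_star, mul_comm]
      _ ≤ C * ‖f r‖ := by
        refine mul_le_mul_of_nonneg_right ?_ h.le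
        calc _ ≤ ‖fderiv ℝ f r‖ * ‖(1 : ℂ)‖ := ContinuousLinearMap.le_opNorm _ _
          _ ≤ C := by rw [norm_one, mul_one]; exact hC _

theorem norm_B_le {C : ℝ} (hC : ∀ z, ‖fderiv ℝ f z‖ ≤ C) (r θ : ℝ) :
    ‖fderiv ℝ f (r * Complex.exp (θ * Complex.I)) (Complex.I * Complex.exp (θ * Complex.I))‖ ≤
      C := by
  calc _ ≤ ‖fderiv ℝ f (r * Complex.exp (θ * Complex.I))‖ *
        ‖Complex.I * Complex.exp (θ * Complex.I)‖ := ContinuousLinearMap.le_opNorm _ _
    _ ≤ C := by
      rw [norm_mul, Complex.norm_I, Complex.norm_exp_ofReal_mul_I, one_mul, mul_one]; exact hC _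

/-- the integral of the tangential derivative -/
noncomputable def BB (f : ℂ → ℂ) (r : ℝ) : ℝ := ∫ θ in Ioo (-Real.pi) Real.pi,
  ‖fderiv ℝ f (r * Complex.exp (θ * Complex.I)) (Complex.I * Complex.exp (θ * Complex.I))‖

theorem BB_nonneg (r : ℝ) : 0 ≤ BB f r := integral_nonneg fun _ => norm_nonneg _

include hf in
theorem integrable_B (r : ℝ) : IntegrableOn (fun θ : ℝ =>
    ‖fderiv ℝ f (r * Complex.exp (θ * Complex.I)) (Complex.I * Complex.exp (θ * Complex.I))‖)
    (Ioo (-Real.pi) Real.pi) := by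
  have h1 : Continuous (fun θ : ℝ => ‖fderiv ℝ f (r * Complex.exp (θ * Complex.I))
      (Complex.I * Complex.exp (θ * Complex.I))‖) :=
    ((continuous_B hf).comp (show Continuous (fun θ : ℝ => (r, θ)) by fun_prop)).norm
  exact (h1.continuousOn.integrableOn_compact isCompact_Icc).mono_set Ioo_subset_Icc_self

include hf in
theorem abs_mk_le (r : ℝ) : |mk f r| ≤ BB f r / (2 * Real.pi) := by
  rw [mk, abs_div, abs_of_pos (show 0 < 2 * Real.pi by positivity)]
  refine div_le_div_of_nonneg_right ?_ (by positivity)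
  calc |∫ θ in Ioo (-Real.pi) Real.pi, kap f r θ| ≤ ∫ θ in Ioo (-Real.pi) Real.pi, |kap f r θ| :=
        abs_integral_le_integral_abs
    _ ≤ BB f r := integral_mono (integrable_kap hf r).abs (integrable_B hf r)
        fun θ => abs_kap_le f r θ

include hf in
theorem abs_mk_le_const {C : ℝ} (hC : ∀ z, ‖fderiv ℝ f z‖ ≤ C) (r : ℝ) : |mk f r| ≤ C := by
  refine (abs_mk_le hf r).trans ?_
  rw [div_le_iff₀ (by positivity)]
  calc BB f r ≤ ∫ θ in Ioo (-Real.pi) Real.pi, C :=
        integral_mono (integrable_B hf r) (by simp)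
          fun θ => norm_B_le hC r θ
    _ = C * (2 * Real.pi) := by
      rw [integral_const]
      simp
      rw [max_eq_left (by positivity)]
      ring

include hf in
theorem abs_mk_le_BB (r : ℝ) : |mk f r| ≤ BB f r := by
  refine (abs_mk_le hf r).trans ?_
  rw [div_le_iff₀ (by positivity)]
  have := Real.pi_gt_three
  nlinarith [BB_nonneg (f := f) r]

include hf in
theorem continuousAt_BB {C : ℝ} (hC : ∀ z, ‖fderiv ℝ f z‖ ≤ C) (r : ℝ) :
    ContinuousAt (BB f) r := by
  refine continuousAt_of_dominated (bound := fun _ => C) ?_ ?_ (by simp) ?_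
  · exact Eventually.of_forall fun s => (integrable_B hf s).aestronglyMeasurable
  · exact Eventually.of_forall fun s => Eventually.of_forall fun θ => by
      rw [norm_norm]; exact norm_B_le hC s θ
  · refine Eventually.of_forall fun θ => ?_
    exact (((continuous_B hf).comp
      (show Continuous (fun s : ℝ => (s, θ)) by fun_prop)).norm).continuousAt

include hf H in
theorem continuousAt_mk {C : ℝ} (hC : ∀ z, ‖fderiv ℝ f z‖ ≤ C) {r : ℝ} (hρ : 0 < rho f r) :
    ContinuousAt (mk f) r := by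
  have h1 : ContinuousAt (fun s => ∫ θ in Ioo (-Real.pi) Real.pi, kap f s θ) r := by
    refine continuousAt_of_dominated (bound := fun _ => C) ?_ ?_ (by simp) ?_
    · exact Eventually.of_forall fun s => (integrable_kap hf s).aestronglyMeasurable
    · exact Eventually.of_forall fun s => Eventually.of_forall fun θ =>
        (abs_kap_le f s θ).trans (norm_B_le hC s θ)
    · refine Eventually.of_forall fun θ => ?_
      have c1 : Continuous (fun s : ℝ => f (s * Complex.exp (θ * Complex.I))) :=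
        hf.continuous.comp (by fun_prop)
      have c2 : Continuous (fun s : ℝ => fderiv ℝ f (s * Complex.exp (θ * Complex.I))
          (Complex.I * Complex.exp (θ * Complex.I))) :=
        (continuous_B hf).comp (show Continuous (fun s : ℝ => (s, θ)) by fun_prop)
      have c3 : Continuous (fun s : ℝ => (star (f (s * Complex.exp (θ * Complex.I))) *
          fderiv ℝ f (s * Complex.exp (θ * Complex.I))
          (Complex.I * Complex.exp (θ * Complex.I))).im) :=
        Complex.continuous_im.comp ((continuous_star.comp c1).mul c2)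
      refine c3.continuousAt.div c1.norm.continuousAt ?_
      rw [norm_f_z H]
      exact hρ.ne'
  exact h1.div_const _

include hf H in
theorem tau_eventually {C : ℝ} (hC : ∀ z, ‖fderiv ℝ f z‖ ≤ C) {r : ℝ} (hr : 0 < r)
    (hρ : 0 < rho f r) : ∀ᶠ s in 𝓝 r, tau f s = tau f r := by
  have hρc : ContinuousAt (rho f) r := (hasDerivAt_rho' hf H hρ).continuousAt
  refine eventually_const ?_ ?_
  · exact ((continuousAt_mk hf H hC hρ).mul continuousAt_id).div hρc hρ.ne'
  · filter_upwards [lt_mem_nhds hr, hρc.eventually (lt_mem_nhds hρ)] with s hs hρs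
    exact tau_int hf H hs hρs

theorem abs_tau_mul_rho {r : ℝ} (hr : 0 < r) : |tau f r| * rho f r ≤ |mk f r| * r := by
  rcases (rho_nonneg f r).eq_or_lt with h | h
  · rw [← h, mul_zero]; positivity
  · rw [tau, abs_div, abs_mul, abs_of_pos hr, abs_of_pos h, div_mul_cancel₀ _ h.ne']

/-- basic bound -/
theorem pow_bound {p : ℝ} (h1 : 1 < p) {r : ℝ} (hr : 0 < r) :
    |tau f r| ^ (p - 1) * rho f r ^ (p - 1) ≤ |mk f r| ^ (p - 1) * r ^ (p - 1) := by
  rw [← Real.mul_rpow (abs_nonneg _) (rho_nonneg _ _), ← Real.mul_rpow (abs_nonneg _) hr.le]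
  exact Real.rpow_le_rpow (mul_nonneg (abs_nonneg _) (rho_nonneg _ _)) (abs_tau_mul_rho hr)
    (by linarith)

theorem abs_Vf_le {p : ℝ} (h1 : 1 < p) {r : ℝ} (hr : 0 < r) :
    |Vf p f r| ≤ |mk f r| ^ (p - 1) * (rho f r * r) := by
  have hρ := rho_nonneg f r
  have e1 : |Vf p f r| = |tau f r| ^ (p - 1) * rho f r ^ p * r ^ (2 - p) := by
    rw [Vf, abs_mul, abs_mul, abs_mul, abs_of_nonneg (show 0 ≤ |tau f r| ^ (p - 2) by positivity),
      abs_rpow_sub_two_mul h1, abs_of_nonneg (show 0 ≤ |rho f r| ^ p by positivity),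
      abs_of_nonneg (show 0 ≤ r ^ (2 - p) by positivity), abs_of_nonneg hρ]
    ring
  have e2 : rho f r ^ p = rho f r ^ (p - 1) * rho f r := by
    rcases hρ.eq_or_lt with h | h
    · rw [← h, Real.zero_rpow (by linarith), mul_zero]
    · rw [← Real.rpow_add_one h.ne']; congr 1; ring
  have e3 : r ^ (p - 1) * r ^ (2 - p) = r := by
    rw [← Real.rpow_add hr]
    calc r ^ (p - 1 + (2 - p)) = r ^ (1 : ℝ) := by congr 1; ring
      _ = r := Real.rpow_one r
  calc |Vf p f r| = (|tau f r| ^ (p - 1) * rho f r ^ (p - 1)) * (rho f r * r ^ (2 - p)) := by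
        rw [e1, e2]; ring
    _ ≤ (|mk f r| ^ (p - 1) * r ^ (p - 1)) * (rho f r * r ^ (2 - p)) := by
        refine mul_le_mul_of_nonneg_right (pow_bound h1 hr) ?_
        positivity
    _ = |mk f r| ^ (p - 1) * (rho f r * (r ^ (p - 1) * r ^ (2 - p))) := by ring
    _ = _ := by rw [e3]

include hf in
theorem rho_lip {C : ℝ} (hC : ∀ z, ‖fderiv ℝ f z‖ ≤ C) (r s : ℝ) :
    |rho f s - rho f r| ≤ C * |s - r| := by
  have := Convex.norm_image_sub_le_of_norm_fderiv_le (𝕜 := ℝ) (f := f) (s := univ)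
    (x := (r : ℂ)) (y := (s : ℂ)) (C := C) (fun x _ => hf.differentiable one_ne_zero x)
    (fun x _ => hC x) convex_univ (mem_univ _) (mem_univ _)
  calc |rho f s - rho f r| ≤ ‖f s - f r‖ := abs_norm_sub_norm_le _ _
    _ ≤ C * ‖(s : ℂ) - r‖ := this
    _ = C * |s - r| := by rw [← Complex.ofReal_sub, Complex.norm_real, Real.norm_eq_abs]

include hf H in
theorem BB_zero {r : ℝ} (hr : r ≠ 0) (hρ : rho f r = 0) : BB f r = 0 := by
  have h1 : ∀ θ : ℝ, fderiv ℝ f (r * Complex.exp (θ * Complex.I))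
      (Complex.I * Complex.exp (θ * Complex.I)) = 0 := by
    intro θ
    have a1 := hasDerivAt_angular hf θ r
    have a2 : (fun t : ℝ => f (r * Complex.exp (t * Complex.I))) = fun _ => (0 : ℂ) := by
      funext t
      rw [← norm_eq_zero, norm_f_z H, hρ]
    rw [a2] at a1
    have a3 := a1.unique (hasDerivAt_const θ _)
    rcases mul_eq_zero.1 a3 with h | h
    · exact absurd (by exact_mod_cast h) hr
    · exact h
  rw [BB]
  simp only [h1, norm_zero, integral_zero]

include hf H in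
theorem hasDerivAt_Vf {p : ℝ} (h1 : 1 < p) {C : ℝ} (hC : ∀ z, ‖fderiv ℝ f z‖ ≤ C) {r : ℝ}
    (hr : 0 < r) : HasDerivAt (Vf p f) (dVf p f r) r := by
  rcases (rho_nonneg f r).eq_or_lt with h | h
  · -- zero of the modulus
    have hτ : tau f r = 0 := tau_of_rho_zero h.symm
    have hV0 : Vf p f r = 0 := by rw [Vf, hτ]; simp
    have hdV : dVf p f r = 0 := by rw [dVf, hτ]; simp
    rw [hdV, hasDerivAt_iff_isLittleO, Asymptotics.isLittleO_iff]
    intro c hc
    have hlim : Tendsto (fun s => BB f s ^ (p - 1) * (C * s)) (𝓝 r) (𝓝 0) := by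
      have a1 : Tendsto (fun s => BB f s ^ (p - 1) * (C * s)) (𝓝 r)
          (𝓝 (BB f r ^ (p - 1) * (C * r))) := by
        have b1 : ContinuousAt (fun s => BB f s ^ (p - 1)) r :=
          (continuousAt_BB hf hC r).rpow_const (Or.inr (by linarith))
        have b2 : ContinuousAt (fun s : ℝ => C * s) r := by fun_prop
        exact b1.mul b2
      rw [BB_zero hf H hr.ne' h.symm, Real.zero_rpow (by linarith), zero_mul] at a1
      exact a1
    filter_upwards [lt_mem_nhds hr, hlim.eventually (gt_mem_nhds hc)] with s hs hcs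
    have hC0 : 0 ≤ C := (norm_nonneg _).trans (hC 0)
    have hB0 := BB_nonneg (f := f) s
    rw [hV0, smul_zero, sub_zero, sub_zero, Real.norm_eq_abs, Real.norm_eq_abs]
    have hρs : rho f s ≤ C * |s - r| := by
      have := rho_lip hf hC r s
      rw [← h, sub_zero] at this
      exact (le_abs_self _).trans this
    calc |Vf p f s| ≤ |mk f s| ^ (p - 1) * (rho f s * s) := abs_Vf_le h1 hs
      _ ≤ BB f s ^ (p - 1) * ((C * |s - r|) * s) := by
        have := abs_mk_le_BB hf s
        have hρ0 := rho_nonneg f s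
        gcongr
      _ = (BB f s ^ (p - 1) * (C * s)) * |s - r| := by ring
      _ ≤ c * |s - r| := mul_le_mul_of_nonneg_right hcs.le (abs_nonneg _)
  · have hρd := hasDerivAt_rho' hf H h
    have hd := (hasDerivAt_V h1 hr hρd).const_mul (|tau f r| ^ (p - 2) * tau f r)
    refine hd.congr_of_eventuallyEq ?_
    filter_upwards [tau_eventually hf H hC hr h] with s hs
    rw [Vf, hs]

theorem abs_dVf_le {p : ℝ} (h1 : 1 < p) {C : ℝ} (hf : ContDiff ℝ 1 f)
    (hC : ∀ z, ‖fderiv ℝ f z‖ ≤ C) {r : ℝ} (hr : 0 < r) :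
    |dVf p f r| ≤ p * C ^ (p - 1) * C * r + |2 - p| * C ^ (p - 1) * rho f r := by
  have hp0 : 0 < p := by linarith
  have hρ := rho_nonneg f r
  have hC0 : 0 ≤ C := (norm_nonneg _).trans (hC 0)
  have hx := abs_xr_le (f := f) hC r
  have e2 : rho f r ^ p = rho f r ^ (p - 1) * rho f r := by
    rcases hρ.eq_or_lt with h | h
    · rw [← h, Real.zero_rpow (by linarith), mul_zero]
    · rw [← Real.rpow_add_one h.ne']; congr 1; ring
  have e3 : r ^ (p - 1) * r ^ (2 - p) = r := by
    rw [← Real.rpow_add hr]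
    calc r ^ (p - 1 + (2 - p)) = r ^ (1 : ℝ) := by congr 1; ring
      _ = r := Real.rpow_one r
  have e4 : r ^ (p - 1) * r ^ (1 - p) = 1 := by
    rw [← Real.rpow_add hr]
    calc r ^ (p - 1 + (1 - p)) = r ^ (0 : ℝ) := by congr 1; ring
      _ = 1 := Real.rpow_zero r
  have b0 : |dV p (rho f r) (xr f r) r| ≤ p * (rho f r ^ (p - 1) * |xr f r|) * r ^ (2 - p) +
      rho f r ^ p * (|2 - p| * r ^ (1 - p)) := by
    have e1 : |p * |rho f r| ^ (p - 2) * rho f r * xr f r * r ^ (2 - p)| =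
        p * (rho f r ^ (p - 1) * |xr f r|) * r ^ (2 - p) := by
      have := abs_rpow_sub_two_mul h1 (rho f r)
      rw [abs_of_nonneg hρ] at this
      rw [← this, abs_mul, abs_mul, abs_mul, abs_mul, abs_of_pos hp0, abs_of_nonneg hρ,
        abs_of_nonneg (show 0 ≤ rho f r ^ (p - 2) by positivity),
        abs_of_nonneg (show 0 ≤ r ^ (2 - p) by positivity)]
      ring
    have e2 : |(|rho f r| ^ p * ((2 - p) * r ^ (1 - p)))| =
        rho f r ^ p * (|2 - p| * r ^ (1 - p)) := by
      rw [abs_mul, abs_mul, abs_of_nonneg hρ, abs_of_nonneg (show 0 ≤ rho f r ^ p by positivity),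
        abs_of_nonneg (show 0 ≤ r ^ (1 - p) by positivity)]
    rw [dV, ← e1, ← e2]
    exact abs_add_le _ _
  have hm : |mk f r| ^ (p - 1) ≤ C ^ (p - 1) :=
    Real.rpow_le_rpow (abs_nonneg _) (abs_mk_le_const hf hC r) (by linarith)
  have hpb : |tau f r| ^ (p - 1) * rho f r ^ (p - 1) ≤ C ^ (p - 1) * r ^ (p - 1) :=
    (pow_bound h1 hr).trans (mul_le_mul_of_nonneg_right hm (by positivity))
  calc |dVf p f r| = |tau f r| ^ (p - 1) * |dV p (rho f r) (xr f r) r| := by
        rw [dVf, abs_mul, abs_mul, abs_of_nonneg (show 0 ≤ |tau f r| ^ (p - 2) by positivity),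
          abs_rpow_sub_two_mul h1]
    _ ≤ |tau f r| ^ (p - 1) * (p * (rho f r ^ (p - 1) * |xr f r|) * r ^ (2 - p) +
        rho f r ^ p * (|2 - p| * r ^ (1 - p))) := mul_le_mul_of_nonneg_left b0 (by positivity)
    _ = (|tau f r| ^ (p - 1) * rho f r ^ (p - 1)) * (p * |xr f r| * r ^ (2 - p) +
        |2 - p| * rho f r * r ^ (1 - p)) := by rw [e2]; ring
    _ ≤ (C ^ (p - 1) * r ^ (p - 1)) * (p * C * r ^ (2 - p) +
        |2 - p| * rho f r * r ^ (1 - p)) := by
        gcongr
    _ = p * C ^ (p - 1) * C * (r ^ (p - 1) * r ^ (2 - p)) +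
        |2 - p| * C ^ (p - 1) * rho f r * (r ^ (p - 1) * r ^ (1 - p)) := by ring
    _ = _ := by rw [e3, e4]; ring

include hf H in
theorem integral_dVf {p : ℝ} (h1 : 1 < p) {C M : ℝ} (hM0 : 0 < M) (hC : ∀ z, ‖fderiv ℝ f z‖ ≤ C)
    (hM : ∀ z : ℂ, M ≤ ‖z‖ → fderiv ℝ f z = 0) :
    IntegrableOn (dVf p f) (Ioi 0) ∧ ∫ r in Ioi (0 : ℝ), dVf p f r = 0 := by
  have hp0 : 0 < p := by linarith
  have hC0 : 0 ≤ C := (norm_nonneg _).trans (hC 0)
  have hτM : ∀ r : ℝ, M ≤ r → tau f r = 0 := by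
    intro r hr
    have hk : ∀ θ : ℝ, kap f r θ = 0 := by
      intro θ
      rw [kap, hM _ (by rw [norm_z]; exact hr.trans (le_abs_self r))]
      simp
    rw [tau, mk]
    simp [hk]
  have hρb : ∀ r : ℝ, 0 < r → rho f r ≤ rho f 0 + C * r := by
    intro r hr
    have h2 := rho_lip hf hC 0 r
    rw [sub_zero, abs_of_pos hr] at h2
    linarith [le_abs_self (rho f r - rho f 0)]
  have hρ0 := rho_nonneg f 0
  have hmeas : AEStronglyMeasurable (dVf p f) (volume.restrict (Ioi 0)) := by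
    refine (measurable_deriv (Vf p f)).aestronglyMeasurable.congr ?_
    filter_upwards [ae_restrict_mem measurableSet_Ioi] with r hr
    exact (hasDerivAt_Vf hf H h1 hC hr).deriv
  have hint : IntegrableOn (dVf p f) (Ioi 0) := by
    have h1' : IntegrableOn (dVf p f) (Ioc 0 M) := by
      refine Integrable.mono' (g := fun _ => p * C ^ (p - 1) * C * M +
        |2 - p| * C ^ (p - 1) * (rho f 0 + C * M)) (by simp)
        (hmeas.mono_measure (Measure.restrict_mono Ioc_subset_Ioi_self le_rfl)) ?_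
      filter_upwards [ae_restrict_mem measurableSet_Ioc] with r hr
      rw [Real.norm_eq_abs]
      refine (abs_dVf_le h1 hf hC hr.1).trans ?_
      have a1 := hr.2
      have a2 := hρb r hr.1
      have a3 : rho f r ≤ rho f 0 + C * M := a2.trans (by gcongr)
      gcongr
    refine h1'.of_forall_sdiff_eq_zero measurableSet_Ioi ?_
    intro r hr
    have hrM : M ≤ r := by
      by_contra h
      rw [not_le] at h
      exact hr.2 ⟨hr.1, h.le⟩
    rw [dVf, hτM r hrM]
    simp
  refine ⟨hint, ?_⟩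
  have hlim : Tendsto (Vf p f) atTop (𝓝 0) := by
    refine (tendsto_congr' ?_).2 tendsto_const_nhds
    filter_upwards [eventually_ge_atTop M] with r hr
    rw [Vf, hτM r hr]
    simp
  have hV0 : Vf p f 0 = 0 := by
    rw [Vf, tau]
    simp
  have hcont : ContinuousWithinAt (Vf p f) (Ici 0) 0 := by
    rw [ContinuousWithinAt, hV0]
    have hsq : Tendsto (fun r : ℝ => C ^ (p - 1) * ((rho f 0 + C * r) * r)) (𝓝[Ici 0] 0)
        (𝓝 0) := by
      have : Continuous (fun r : ℝ => C ^ (p - 1) * ((rho f 0 + C * r) * r)) := by fun_prop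
      have h := (this.tendsto 0).mono_left (nhdsWithin_le_nhds (s := Ici (0 : ℝ)))
      simpa using h
    refine squeeze_zero_norm' ?_ hsq
    filter_upwards [self_mem_nhdsWithin] with r hr
    have hr0 : 0 ≤ r := hr
    rw [Real.norm_eq_abs]
    rcases hr0.eq_or_lt with h | h
    · rw [← h, hV0]; simp
    · refine (abs_Vf_le h1 h).trans ?_
      have hm : |mk f r| ^ (p - 1) ≤ C ^ (p - 1) :=
        Real.rpow_le_rpow (abs_nonneg _) (abs_mk_le_const hf hC r) (by linarith)
      have a2 := hρb r h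
      have hρ := rho_nonneg f r
      gcongr
  rw [integral_Ioi_of_hasDerivAt_of_tendsto hcont (fun r hr => hasDerivAt_Vf hf H h1 hC hr)
    hint hlim, hV0, sub_zero]

end

end Pool.Agent.Helper28.Iw
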