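import Pool.Agent.Helper28.Iw.Ray

/-!
# Winding numbers
-/

namespace Pool.Agent.Helper28.Iw

open Set MeasureTheory Filter Topology

theorem winding {g g' : ℝ → ℂ} (hg : ∀ t, HasDerivAt g (g' t) t) (hg'c : Continuous g')
    (h0 : ∀ t, g t ≠ 0) {a b : ℝ} (hab : g a = g b) :
    ∃ n : ℤ, ∫ t in a..b, g' t / g t = n * (2 * Real.pi * Complex.I) := by
  have hgc : Continuous g := continuous_iff_continuousAt.2 fun t => (hg t).continuousAt
  have hφ : Continuous (fun t => g' t / g t) := hg'c.div hgc h0
  set F : ℝ → ℂ := fun t => ∫ s in a..t, g' s / g s with hF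
  have hFd : ∀ t, HasDerivAt F (g' t / g t) t := fun t =>
    (hφ.integral_hasStrictDerivAt a t).hasDerivAt
  have hd : ∀ t, HasDerivAt (fun t => g t * Complex.exp (-F t)) 0 t := by
    intro t
    have a1 := (hg t).mul ((hFd t).neg.cexp)
    refine a1.congr_deriv ?_
    have := h0 t
    field_simp
    simp
  have hconst := is_const_of_deriv_eq_zero (f := fun t => g t * Complex.exp (-F t))
    (fun t => (hd t).differentiableAt) (fun t => (hd t).deriv) a b
  simp only [hF, intervalIntegral.integral_same, neg_zero, Complex.exp_zero, mul_one] at hconst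
  have h1 : Complex.exp (-∫ t in a..b, g' t / g t) = 1 := by
    have h2 : g b * Complex.exp (-∫ t in a..b, g' t / g t) = g b * 1 := by
      rw [mul_one, ← hconst, hab]
    exact mul_left_cancel₀ (h0 b) h2
  obtain ⟨n, hn⟩ := Complex.exp_eq_one_iff.1 h1
  refine ⟨-n, ?_⟩
  push_cast
  linear_combination -hn

/-- an integer valued function continuous at a point is locally constant there -/
theorem eventually_const {φ : ℝ → ℝ} {r : ℝ} (hc : ContinuousAt φ r)
    (hi : ∀ᶠ s in 𝓝 r, ∃ n : ℤ, φ s = n) : ∀ᶠ s in 𝓝 r, φ s = φ r := by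
  obtain ⟨m, hm⟩ := hi.self_of_nhds
  have h1 : ∀ᶠ s in 𝓝 r, |φ s - φ r| < 1 := by
    have := hc.eventually (Metric.ball_mem_nhds (φ r) one_pos)
    filter_upwards [this] with s hs
    simpa [Real.dist_eq] using hs
  filter_upwards [h1, hi] with s hs ⟨n, hn⟩
  rw [hn, hm] at hs ⊢
  have : |((n - m : ℤ) : ℝ)| < 1 := by push_cast; exact hs
  rw [← Int.cast_abs] at this
  have h2 : |n - m| < 1 := by exact_mod_cast this
  have h3 : n - m = 0 := Int.abs_lt_one_iff.1 h2
  have : n = m := by omega
  rw [this]

/-- the angular component of the differential in the frame of `f` -/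
noncomputable def kap (f : ℂ → ℂ) (r θ : ℝ) : ℝ :=
  (star (f (r * Complex.exp (θ * Complex.I))) * fderiv ℝ f (r * Complex.exp (θ * Complex.I))
    (Complex.I * Complex.exp (θ * Complex.I))).im / ‖f (r * Complex.exp (θ * Complex.I))‖

/-- its mean over a circle -/
noncomputable def mk (f : ℂ → ℂ) (r : ℝ) : ℝ :=
  (∫ θ in Ioo (-Real.pi) Real.pi, kap f r θ) / (2 * Real.pi)

/-- the modulus -/
noncomputable def rho (f : ℂ → ℂ) (r : ℝ) : ℝ := ‖f r‖

/-- the turning number -/
noncomputable def tau (f : ℂ → ℂ) (r : ℝ) : ℝ := mk f r * r / rho f r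

theorem norm_z (r θ : ℝ) : ‖(r : ℂ) * Complex.exp (θ * Complex.I)‖ = |r| := by
  rw [norm_mul, Complex.norm_exp_ofReal_mul_I, mul_one, Complex.norm_real, Real.norm_eq_abs]

section

variable {f : ℂ → ℂ} (hf : ContDiff ℝ 1 f) (H : ∀ z w : ℂ, ‖z‖ = ‖w‖ → ‖f z‖ = ‖f w‖)

include H in
theorem norm_f_z (r θ : ℝ) : ‖f (r * Complex.exp (θ * Complex.I))‖ = rho f r := by
  rw [rho]
  apply H
  rw [norm_z, Complex.norm_real, Real.norm_eq_abs]

include hf in
theorem continuous_B : Continuous (fun q : ℝ × ℝ =>
    fderiv ℝ f (q.1 * Complex.exp (q.2 * Complex.I)) (Complex.I * Complex.exp (q.2 * Complex.I))) := by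
  have hD : Continuous (fderiv ℝ f) := hf.continuous_fderiv one_ne_zero
  have h1 : Continuous (fun q : ℝ × ℝ => fderiv ℝ f (q.1 * Complex.exp (q.2 * Complex.I))) :=
    hD.comp (by fun_prop)
  exact h1.clm_apply (by fun_prop)

theorem abs_kap_le (f : ℂ → ℂ) (r θ : ℝ) : |kap f r θ| ≤
    ‖fderiv ℝ f (r * Complex.exp (θ * Complex.I)) (Complex.I * Complex.exp (θ * Complex.I))‖ := by
  rw [kap, abs_div, abs_norm]
  rcases (norm_nonneg (f (r * Complex.exp (θ * Complex.I)))).eq_or_lt with h | h
  · rw [← h, div_zero]; exact norm_nonneg _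
  · rw [div_le_iff₀ h]
    calc _ ≤ ‖star (f (r * Complex.exp (θ * Complex.I))) * fderiv ℝ f (r * Complex.exp
          (θ * Complex.I)) (Complex.I * Complex.exp (θ * Complex.I))‖ := Complex.abs_im_le_norm _
      _ = _ := by rw [norm_mul, norm_star, mul_comm]

include hf in
theorem measurable_kap (r : ℝ) : Measurable (kap f r) := by
  unfold kap
  have h1 : Continuous (fun θ : ℝ => fderiv ℝ f (r * Complex.exp (θ * Complex.I))
      (Complex.I * Complex.exp (θ * Complex.I))) := by
    have := (continuous_B hf).comp (show Continuous (fun θ : ℝ => (r, θ)) by fun_prop)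
    exact this
  have h2 : Continuous (fun θ : ℝ => f (r * Complex.exp (θ * Complex.I))) :=
    hf.continuous.comp (by fun_prop)
  have h3 : Continuous (fun θ : ℝ => (star (f (r * Complex.exp (θ * Complex.I))) *
      fderiv ℝ f (r * Complex.exp (θ * Complex.I))
      (Complex.I * Complex.exp (θ * Complex.I))).im) := by
    have := (continuous_star.comp h2).mul h1
    exact Complex.continuous_im.comp this
  exact h3.measurable.div h2.norm.measurable

include hf in
theorem integrable_kap (r : ℝ) : IntegrableOn (kap f r) (Ioo (-Real.pi) Real.pi) := by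
  have h1 : Continuous (fun θ : ℝ => ‖fderiv ℝ f (r * Complex.exp (θ * Complex.I))
      (Complex.I * Complex.exp (θ * Complex.I))‖) := by
    have := ((continuous_B hf).comp (show Continuous (fun θ : ℝ => (r, θ)) by fun_prop)).norm
    exact this
  have h2 : IntegrableOn (fun θ : ℝ => ‖fderiv ℝ f (r * Complex.exp (θ * Complex.I))
      (Complex.I * Complex.exp (θ * Complex.I))‖) (Ioo (-Real.pi) Real.pi) :=
    (h1.continuousOn.integrableOn_compact isCompact_Icc).mono_set Ioo_subset_Icc_self
  refine h2.mono' (measurable_kap hf r).aestronglyMeasurable ?_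
  filter_upwards with θ
  rw [Real.norm_eq_abs]
  exact abs_kap_le f r θ

include hf H in
/-- the tangential derivative is orthogonal to `f` -/
theorem re_zero (r θ : ℝ) (hr : r ≠ 0) :
    (star (f (r * Complex.exp (θ * Complex.I))) * fderiv ℝ f (r * Complex.exp (θ * Complex.I))
    (Complex.I * Complex.exp (θ * Complex.I))).re = 0 := by
  have h1 := (hasDerivAt_angular hf θ r).norm_sq
  have h2 : (fun t : ℝ => ‖f (r * Complex.exp (t * Complex.I))‖ ^ 2) = fun _ => rho f r ^ 2 := by
    funext t
    rw [norm_f_z H]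
  rw [h2] at h1
  have h3 := h1.unique (hasDerivAt_const θ _)
  rw [Complex.inner] at h3
  have h4 : ((r * fderiv ℝ f (r * Complex.exp (θ * Complex.I))
        (Complex.I * Complex.exp (θ * Complex.I))) *
        (starRingEnd ℂ) (f (r * Complex.exp (θ * Complex.I)))).re = r * (star (f (r * Complex.exp
        (θ * Complex.I))) * fderiv ℝ f (r * Complex.exp (θ * Complex.I))
    (Complex.I * Complex.exp (θ * Complex.I))).re := by
    rw [← Complex.re_ofReal_mul]
    congr 1
    simp only [starRingEnd_apply]
    ring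
  rw [h4] at h3
  have : r * (star (f (r * Complex.exp
        (θ * Complex.I))) * fderiv ℝ f (r * Complex.exp (θ * Complex.I))
    (Complex.I * Complex.exp (θ * Complex.I))).re = 0 := by linarith
  rcases mul_eq_zero.1 this with h | h
  · exact absurd h hr
  · exact h

include hf H in
theorem tau_int {r : ℝ} (hr : 0 < r) (hρ : 0 < rho f r) : ∃ n : ℤ, tau f r = n := by
  have h0 : ∀ t : ℝ, f (r * Complex.exp (t * Complex.I)) ≠ 0 := by
    intro t h
    have := norm_f_z H r t
    rw [h, norm_zero] at this
    exact hρ.ne this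
  have hgc : Continuous (fun t : ℝ => (r : ℂ) * fderiv ℝ f (r * Complex.exp (t * Complex.I))
        (Complex.I * Complex.exp (t * Complex.I))) := by
    have := ((continuous_B hf).comp (show Continuous (fun θ : ℝ => (r, θ)) by fun_prop))
    exact continuous_const.mul this
  have hper : f (r * Complex.exp (((-Real.pi : ℝ) : ℂ) * Complex.I)) =
      f (r * Complex.exp ((Real.pi : ℝ) * Complex.I)) := by
    have : Complex.exp (((-Real.pi : ℝ) : ℂ) * Complex.I) =
        Complex.exp ((Real.pi : ℝ) * Complex.I) := by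
      rw [Complex.exp_pi_mul_I]
      push_cast
      rw [neg_mul, Complex.exp_neg, Complex.exp_pi_mul_I]
      norm_num
    rw [this]
  obtain ⟨n, hn⟩ := winding (fun t => hasDerivAt_angular hf t r) hgc h0 hper
  refine ⟨n, ?_⟩
  have e1 : ∀ t : ℝ, (r : ℂ) * fderiv ℝ f (r * Complex.exp (t * Complex.I))
        (Complex.I * Complex.exp (t * Complex.I)) / f (r * Complex.exp (t * Complex.I)) =
        Complex.I * ((r / rho f r * kap f r t : ℝ) : ℂ) := by
    intro t
    have hre := re_zero hf H r t hr.ne'
    set F := f (r * Complex.exp (t * Complex.I)) with hF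
    set B := fderiv ℝ f (r * Complex.exp (t * Complex.I))
        (Complex.I * Complex.exp (t * Complex.I)) with hB
    have hk : kap f r t = (star F * B).im / rho f r := by
      rw [kap, norm_f_z H]
    have hFF : star F * F = ((rho f r ^ 2 : ℝ) : ℂ) := by
      have : ‖F‖ = rho f r := norm_f_z H r t
      rw [← this]
      have := Complex.conj_mul' F
      push_cast
      exact this
    have hsB : star F * B = Complex.I * (((star F * B).im : ℝ) : ℂ) := by
      apply Complex.ext
      · rw [hre]; simp
      · simp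
    have hF0 : F ≠ 0 := h0 t
    have hsF : star F ≠ 0 := by simpa using hF0
    rw [hk, div_eq_iff hF0]
    apply mul_left_cancel₀ hsF
    have hρ' : (rho f r : ℂ) ≠ 0 := by exact_mod_cast hρ.ne'
    calc star F * (r * B) = r * (star F * B) := by ring
      _ = r * (Complex.I * (((star F * B).im : ℝ) : ℂ)) := by rw [← hsB]
      _ = Complex.I * ((r / rho f r * ((star F * B).im / rho f r) : ℝ) : ℂ) *
          ((rho f r ^ 2 : ℝ) : ℂ) := by
          push_cast
          field_simp
      _ = star F * (Complex.I * ((r / rho f r * ((star F * B).im / rho f r) : ℝ) : ℂ) * F) := by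
          rw [← hFF]; ring
  have e2 : ∫ t in (-Real.pi)..Real.pi, (r : ℂ) * fderiv ℝ f (r * Complex.exp (t * Complex.I))
        (Complex.I * Complex.exp (t * Complex.I)) / f (r * Complex.exp (t * Complex.I)) =
        Complex.I * ((r / rho f r * (2 * Real.pi * mk f r) : ℝ) : ℂ) := by
    rw [intervalIntegral.integral_congr (g := fun t => Complex.I *
      ((r / rho f r * kap f r t : ℝ) : ℂ)) (fun t _ => e1 t)]
    rw [intervalIntegral.integral_const_mul, intervalIntegral.integral_ofReal,
      intervalIntegral.integral_const_mul, intervalIntegral.integral_of_le (by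
        linarith [Real.pi_pos]), integral_Ioc_eq_integral_Ioo, mk]
    congr 3
    field_simp
  rw [e2] at hn
  have h3 : ((r / rho f r * (2 * Real.pi * mk f r) : ℝ) : ℂ) = ((n * (2 * Real.pi) : ℝ) : ℂ) := by
    apply mul_left_cancel₀ Complex.I_ne_zero
    rw [hn]
    push_cast
    ring
  have h4 : r / rho f r * (2 * Real.pi * mk f r) = n * (2 * Real.pi) := by exact_mod_cast h3
  have h5 : tau f r * (2 * Real.pi) = n * (2 * Real.pi) := by
    rw [← h4, tau]; ring
  exact mul_right_cancel₀ (by positivity) h5

end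

end Pool.Agent.Helper28.Iw
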